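import Mathlib

/-!
# At most one point of `h < 0` on a circle, `h u = u G(ω u) / G u`
-/

namespace SokalRay

open Real Filter Topology

/-- A function that can cross the levels `π + 2πk` only upwards and grows by `2π` per period
crosses them only once per period. -/
theorem crossing {Y Y' : ℝ → ℝ} (hY : ∀ x, HasDerivAt Y (Y' x) x)
    (hper : ∀ x, Y (x + 2 * π) = Y x + 2 * π)
    (hpos : ∀ x, (∃ k : ℤ, Y x = π + k * (2 * π)) → 0 < Y' x) {a b : ℝ} (hab : a < b)
    (hba : b < a + 2 * π) (ha : ∃ k : ℤ, Y a = π + k * (2 * π))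
    (hb : ∃ k : ℤ, Y b = π + k * (2 * π)) : False := by
  have hcont : Continuous Y := continuous_iff_continuousAt.2 fun x => (hY x).continuousAt
  have key : ∀ c d : ℝ, (∃ k : ℤ, Y c = π + k * (2 * π)) → c < d → Y c < Y d := by
    intro c d hc hcd
    have hge : ∀ x, c ≤ x → Y c ≤ Y x := by
      intro x hx
      refine image_le_of_liminf_slope_right_lt_deriv_boundary' (f := fun _ => Y c)
        (f' := fun _ => 0) (a := c) (b := x) (B := Y) (B' := Y') continuousOn_const ?_ le_rfl
        hcont.continuousOn (fun y _ => (hY y).hasDerivWithinAt) ?_ (Set.right_mem_Icc.2 hx)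
      · intro y _ r hr
        refine (Eventually.of_forall fun z => ?_).frequently
        simpa [slope_def_field] using hr
      · intro y _ hy
        refine hpos y ?_
        obtain ⟨k, hk⟩ := hc
        exact ⟨k, hy.symm.trans hk⟩
    rcases (hge d hcd.le).lt_or_eq with h | h
    · exact h
    · exfalso
      have h1 : 0 < Y' d := by
        obtain ⟨k, hk⟩ := hc
        exact hpos d ⟨k, h.symm.trans hk⟩
      have h2 := (hY d).tendsto_slope
      have h3 : ∀ᶠ x in 𝓝[≠] d, 0 < slope Y d x := h2.eventually_const_lt h1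
      have h4 : ∀ᶠ x in 𝓝[<] d, 0 < slope Y d x :=
        h3.filter_mono (nhdsWithin_mono _ fun x hx => ne_of_lt hx)
      have h5 : ∀ᶠ x in 𝓝[<] d, c < x :=
        (eventually_nhdsWithin_of_eventually_nhds (lt_mem_nhds hcd))
      have h6 : ∀ᶠ x in 𝓝[<] d, x < d := eventually_mem_nhdsWithin
      obtain ⟨x, hx1, hx2, hx3⟩ := (h4.and (h5.and h6)).exists
      rw [slope_def_field] at hx1
      have h7 := hge x hx2.le
      rw [h] at h7
      have h8 : (Y x - Y d) / (x - d) ≤ 0 :=
        div_nonpos_of_nonneg_of_nonpos (by linarith) (by linarith)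
      linarith
  have h1 := key a b ha hab
  have h2 := key b (a + 2 * π) hb hba
  rw [hper] at h2
  obtain ⟨k, hk⟩ := ha
  obtain ⟨l, hl⟩ := hb
  rw [hk, hl] at h1
  rw [hk, hl] at h2
  have hpi := pi_pos
  have h3 : (k : ℝ) < l := by nlinarith
  have h4 : (l : ℝ) < k + 1 := by nlinarith
  have h5 : k < l := by exact_mod_cast h3
  have h6 : l < k + 1 := by exact_mod_cast h4
  omega

/-- On a circle on which `G` does not vanish there is at most one point with `u G(ω u) / G u < 0`,
if the argument of this function increases at all such points. -/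
theorem one_point {G : ℂ → ℂ} (hG : Differentiable ℂ G) (α : ℝ) {r : ℝ} (hr : 0 < r)
    (hne : ∀ u : ℂ, ‖u‖ = r → G u ≠ 0)
    (hpos : ∀ u : ℂ, ‖u‖ = r →
      (∃ s : ℝ, 0 < s ∧ G u + s * (u * G (Complex.exp (α * Complex.I) * u)) = 0) →
      0 < (1 + Complex.exp (α * Complex.I) * u * deriv G (Complex.exp (α * Complex.I) * u) /
        G (Complex.exp (α * Complex.I) * u) - u * deriv G u / G u).re)
    {u v : ℂ} (hu : ‖u‖ = r) (hv : ‖v‖ = r) (huv : u ≠ v)
    (hu' : ∃ s : ℝ, 0 < s ∧ G u + s * (u * G (Complex.exp (α * Complex.I) * u)) = 0)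
    (hv' : ∃ s : ℝ, 0 < s ∧ G v + s * (v * G (Complex.exp (α * Complex.I) * v)) = 0) : False := by
  set ω := Complex.exp (α * Complex.I) with hω
  set c : ℝ → ℂ := fun θ => r * Complex.exp (θ * Complex.I) with hc
  have hrc : (r : ℂ) ≠ 0 := by exact_mod_cast hr.ne'
  have hcn : ∀ θ, ‖c θ‖ = r := by
    intro θ
    simp only [hc]
    rw [norm_mul, Complex.norm_exp_ofReal_mul_I, mul_one, Complex.norm_real,
      Real.norm_of_nonneg hr.le]
  have hc0 : ∀ θ, c θ ≠ 0 := fun θ => norm_pos_iff.1 (by rw [hcn]; exact hr)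
  have hcd : ∀ θ, HasDerivAt c (Complex.I * c θ) θ := by
    intro θ
    have h1 : HasDerivAt (fun x : ℝ => (x : ℂ) * Complex.I) Complex.I θ := by
      have := (Complex.ofRealCLM.hasDerivAt (x := θ)).mul_const Complex.I
      simpa using this
    have h2 := (h1.cexp).const_mul (r : ℂ)
    refine h2.congr_deriv ?_
    simp only [hc]
    ring
  have hcc : Continuous c := continuous_iff_continuousAt.2 fun x => (hcd x).continuousAt
  have hcα : ∀ θ, c (θ + α) = ω * c θ := by
    intro θ
    simp only [hc, hω]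
    push_cast
    rw [add_mul, Complex.exp_add]
    ring
  have hc2π : ∀ θ, c (θ + 2 * π) = c θ := by
    intro θ
    simp only [hc]
    push_cast
    rw [add_mul, Complex.exp_add, Complex.exp_two_pi_mul_I, mul_one]
  have hdG : Continuous (deriv G) := hG.contDiff (n := 1) |>.continuous_deriv le_rfl
  set m : ℝ → ℂ := fun θ => Complex.I * (c θ * deriv G (c θ) / G (c θ)) with hm
  have hmc : Continuous m := by
    simp only [hm]
    refine continuous_const.mul (Continuous.div (hcc.mul (hdG.comp hcc)) (hG.continuous.comp hcc)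
      fun θ => hne _ (hcn θ))
  have hmper : Function.Periodic m (2 * π) := by
    intro θ
    simp only [hm]
    rw [hc2π]
  set L : ℝ → ℂ := fun θ => ∫ x in (0 : ℝ)..θ, m x with hL
  have hLd : ∀ θ, HasDerivAt L (m θ) θ := fun θ =>
    intervalIntegral.integral_hasDerivAt_right (hmc.intervalIntegrable _ _)
      hmc.stronglyMeasurable.stronglyMeasurableAtFilter hmc.continuousAt
  have hGL : ∀ θ, G (c θ) = G (c 0) * Complex.exp (L θ) := by
    have h1 : ∀ θ, HasDerivAt (fun θ => G (c θ) * Complex.exp (-L θ)) 0 θ := by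
      intro θ
      have h2 : HasDerivAt (fun θ => G (c θ)) (deriv G (c θ) * (Complex.I * c θ)) θ :=
        (hG (c θ)).hasDerivAt.comp_of_eq θ (hcd θ) rfl
      have h3 := h2.mul ((hLd θ).neg.cexp)
      refine h3.congr_deriv ?_
      have h4 := hne _ (hcn θ)
      simp only [hm]
      field_simp
      ring
    intro θ
    have h2 := is_const_of_deriv_eq_zero (fun θ => (h1 θ).differentiableAt)
      (fun θ => (h1 θ).deriv) θ 0
    have hL0 : L 0 = 0 := by simp [hL]
    simp only [hL0, neg_zero, Complex.exp_zero, mul_one] at h2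
    rw [← h2, mul_assoc, ← Complex.exp_add, neg_add_cancel, Complex.exp_zero, mul_one]
  set Λ : ℝ → ℂ := fun θ => θ * Complex.I + L (θ + α) - L θ with hΛ
  have hG0 := hne _ (hcn 0)
  have hh : ∀ θ, c θ * G (ω * c θ) = r * Complex.exp (Λ θ) * G (c θ) := by
    intro θ
    rw [← hcα, hGL (θ + α), hGL θ]
    simp only [hΛ]
    rw [Complex.exp_sub, Complex.exp_add]
    have := Complex.exp_ne_zero (L θ)
    simp only [hc]
    field_simp
  have hΛd : ∀ θ, HasDerivAt Λ (Complex.I + m (θ + α) - m θ) θ := by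
    intro θ
    have h1 : HasDerivAt (fun x : ℝ => (x : ℂ) * Complex.I) Complex.I θ := by
      have := (Complex.ofRealCLM.hasDerivAt (x := θ)).mul_const Complex.I
      simpa using this
    have h2 : HasDerivAt (fun x : ℝ => L (x + α)) (m (θ + α)) θ := (hLd (θ + α)).comp_add_const θ α
    exact (h1.add h2).sub (hLd θ)
  have hYd : ∀ θ, HasDerivAt (fun θ => (Λ θ).im) ((Complex.I + m (θ + α) - m θ).im) θ := by
    intro θ
    have := (Complex.imCLM.hasFDerivAt (x := Λ θ)).comp_hasDerivAt θ (hΛd θ)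
    exact this
  have hLper : ∀ θ, L (θ + 2 * π) = L θ + L (2 * π) := by
    intro θ
    have h1 := hmper.intervalIntegral_add_eq θ 0
    rw [zero_add] at h1
    have h2 : L (θ + 2 * π) = L θ + ∫ x in θ..(θ + 2 * π), m x := by
      simp only [hL]
      rw [intervalIntegral.integral_add_adjacent_intervals (hmc.intervalIntegrable _ _)
        (hmc.intervalIntegrable _ _)]
    rw [h2, h1]
  have hYper : ∀ θ, (Λ (θ + 2 * π)).im = (Λ θ).im + 2 * π := by
    intro θ
    have : Λ (θ + 2 * π) = Λ θ + ((2 * π : ℝ) : ℂ) * Complex.I := by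
      simp only [hΛ]
      rw [show θ + 2 * π + α = (θ + α) + 2 * π by ring, hLper, hLper]
      push_cast
      ring
    rw [this, Complex.add_im, Complex.im_ofReal_mul, Complex.I_im, mul_one]
  have hYm : ∀ θ, (Complex.I + m (θ + α) - m θ).im =
      (1 + ω * c θ * deriv G (ω * c θ) / G (ω * c θ) - c θ * deriv G (c θ) / G (c θ)).re := by
    intro θ
    have h1 : Complex.I + m (θ + α) - m θ = Complex.I *
        (1 + ω * c θ * deriv G (ω * c θ) / G (ω * c θ) - c θ * deriv G (c θ) / G (c θ)) := by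
      simp only [hm]
      rw [hcα]
      ring
    rw [h1, Complex.I_mul_im]
  have hiff1 : ∀ θ, (∃ k : ℤ, (Λ θ).im = π + k * (2 * π)) →
      ∃ s : ℝ, 0 < s ∧ G (c θ) + s * (c θ * G (ω * c θ)) = 0 := by
    rintro θ ⟨k, hk⟩
    have h1 : Complex.exp (Λ θ) = -(Real.exp (Λ θ).re : ℂ) := by
      rw [Complex.exp_eq_exp_re_mul_sin_add_cos, hk, ← Complex.ofReal_cos, ← Complex.ofReal_sin,
        Real.cos_add_int_mul_two_pi, Real.sin_add_int_mul_two_pi, Real.cos_pi, Real.sin_pi,
        ← Complex.ofReal_exp]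
      push_cast
      ring
    have h2 : (Real.exp (Λ θ).re : ℂ) ≠ 0 := by exact_mod_cast (Real.exp_pos _).ne'
    refine ⟨1 / (r * Real.exp (Λ θ).re), by positivity, ?_⟩
    rw [hh, h1]
    push_cast
    push_cast at h2
    field_simp
    ring
  have hiff2 : ∀ θ, (∃ s : ℝ, 0 < s ∧ G (c θ) + s * (c θ * G (ω * c θ)) = 0) →
      ∃ k : ℤ, (Λ θ).im = π + k * (2 * π) := by
    rintro θ ⟨s, hs, h1⟩
    rw [hh] at h1
    have h2 := hne _ (hcn θ)
    have hsc : (s : ℂ) ≠ 0 := by exact_mod_cast hs.ne'
    have h3 : Complex.exp (Λ θ) = -(1 / (s * r) : ℂ) := by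
      have h4 : G (c θ) * (1 + s * r * Complex.exp (Λ θ)) = 0 := by
        linear_combination h1
      have h5 := (mul_eq_zero.1 h4).resolve_left h2
      field_simp
      linear_combination h5
    have h6 : Complex.exp (Λ θ) = Complex.exp ((Real.log (1 / (s * r)) : ℝ) + π * Complex.I) := by
      rw [Complex.exp_add, Complex.exp_pi_mul_I, ← Complex.ofReal_exp,
        Real.exp_log (by positivity), h3]
      push_cast
      ring
    obtain ⟨n, hn⟩ := Complex.exp_eq_exp_iff_exists_int.1 h6
    refine ⟨n, ?_⟩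
    rw [hn]
    simp
  have hYpos : ∀ θ, (∃ k : ℤ, (Λ θ).im = π + k * (2 * π)) →
      0 < (Complex.I + m (θ + α) - m θ).im := by
    intro θ hθ
    rw [hYm]
    exact hpos _ (hcn θ) (hiff1 θ hθ)
  have hcarg : ∀ z : ℂ, ‖z‖ = r → c z.arg = z := by
    intro z hz
    simp only [hc]
    rw [← hz]
    exact Complex.norm_mul_exp_arg_mul_I z
  have hu2 := hiff2 u.arg (by rw [hcarg u hu]; exact hu')
  have hv2 := hiff2 v.arg (by rw [hcarg v hv]; exact hv')
  have hne' : u.arg ≠ v.arg := by
    intro h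
    apply huv
    rw [← hcarg u hu, ← hcarg v hv, h]
  have b1 := Complex.neg_pi_lt_arg u
  have b2 := Complex.arg_le_pi u
  have b3 := Complex.neg_pi_lt_arg v
  have b4 := Complex.arg_le_pi v
  rcases lt_or_gt_of_ne hne' with h | h
  · exact crossing hYd hYper hYpos h (by linarith) hu2 hv2
  · exact crossing hYd hYper hYpos h (by linarith) hv2 hu2

end SokalRay
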