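import Mathlib

/-!
# The polynomials `∑ C(n,k) ρ^(k(k-1)/2) x^k`, `0 < ρ < 1`, have real separated zeros
-/

namespace SokalRay

open Polynomial

/-- The sign of a product of real linear factors. -/
theorem sign_lemma (a : ℕ → ℝ) (x : ℝ) (n : ℕ) : ∀ j, j ≤ n → (∀ i < j, x < a i) →
    (∀ i, j ≤ i → i < n → a i < x) → 0 < (-1 : ℝ) ^ j * ∏ i ∈ Finset.range n, (x - a i) := by
  induction n with
  | zero =>
    intro j hj _ _
    obtain rfl : j = 0 := by omega
    simp
  | succ n ih =>
    intro j hj h1 h2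
    rw [Finset.prod_range_succ]
    rcases Nat.lt_or_ge n j with h3 | h3
    · obtain rfl : j = n + 1 := by omega
      have h4 := ih n le_rfl (fun i hi => h1 i (by omega)) (fun i hi hi' => by omega)
      have h5 := h1 n (by omega)
      have h6 : (-1 : ℝ) ^ (n + 1) * ((∏ i ∈ Finset.range n, (x - a i)) * (x - a n)) =
          ((-1) ^ n * ∏ i ∈ Finset.range n, (x - a i)) * (a n - x) := by ring
      rw [h6]
      exact mul_pos h4 (by linarith)
    · have h4 := ih j h3 h1 (fun i hi hi' => h2 i hi (by omega))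
      have h5 := h2 n h3 (by omega)
      rw [← mul_assoc]
      exact mul_pos h4 (by linarith)

theorem sep_all {ρ : ℝ} (hρ1 : ρ < 1) {n : ℕ} {t : ℕ → ℝ} (ht : ∀ j < n, 0 < t j)
    (hsep : ∀ j, j + 1 < n → t (j + 1) < ρ * t j) (j : ℕ) :
    ∀ i, i < j → j < n → t j < ρ * t i := by
  induction j with
  | zero => intro i hi _; omega
  | succ j ih =>
    intro i hi hj
    have h1 := hsep j hj
    rcases Nat.lt_or_ge i j with h2 | h2
    · have h3 := ih i h2 (by omega)
      have h4 := ht i (by omega)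
      have h5 := ht j (by omega)
      nlinarith
    · obtain rfl : i = j := by omega
      exact h1

/-- The real step. -/
theorem step_real {ρ : ℝ} (hρ0 : 0 < ρ) (hρ1 : ρ < 1) {n : ℕ} {t : ℕ → ℝ}
    (ht : ∀ j < n, 0 < t j) (hsep : ∀ j, j + 1 < n → t (j + 1) < ρ * t j) :
    ∃ s : ℕ → ℝ, (∀ j < n + 1, 0 < s j) ∧ (∀ j, j + 1 < n + 1 → s (j + 1) < ρ * s j) ∧
      ∀ j < n + 1, s j * ∏ i ∈ Finset.range n, (s j - t i) -
        ∏ i ∈ Finset.range n, (s j - ρ * t i) = 0 := by
  set R : ℝ → ℝ := fun x => x * ∏ i ∈ Finset.range n, (x - t i) -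
    ∏ i ∈ Finset.range n, (x - ρ * t i) with hR
  have hcont : Continuous R := by
    rw [hR]
    fun_prop
  have hlt := sep_all hρ1 ht hsep
  have hdec : ∀ i j, i < j → j < n → t j < t i := by
    intro i j hij hj
    have h1 := hlt j i hij hj
    have h2 := ht i (by omega)
    nlinarith
  -- a large point
  obtain ⟨M, hM0, hMt, hMR⟩ : ∃ M : ℝ, 0 < M ∧ (∀ i < n, t i < M) ∧ 0 < R M := by
    set M : ℝ := 2 ^ n + 1 + 2 * ∑ i ∈ Finset.range n, t i with hM
    have hS : ∀ i < n, t i ≤ ∑ i ∈ Finset.range n, t i := fun i hi =>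
      Finset.single_le_sum (f := t) (fun k hk => (ht k (Finset.mem_range.1 hk)).le)
        (Finset.mem_range.2 hi)
    have hS0 : 0 ≤ ∑ i ∈ Finset.range n, t i :=
      Finset.sum_nonneg fun k hk => (ht k (Finset.mem_range.1 hk)).le
    have h2n : (0 : ℝ) < 2 ^ n := by positivity
    have hM0 : 0 < M := by linarith
    refine ⟨M, hM0, fun i hi => by linarith [hS i hi, ht i hi], ?_⟩
    have h1 : ∏ i ∈ Finset.range n, (M - ρ * t i) ≤ ∏ _i ∈ Finset.range n, M := by
      refine Finset.prod_le_prod (fun i hi => ?_) (fun i hi => ?_)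
      · have hi' := Finset.mem_range.1 hi
        have := hS i hi'
        have := ht i hi'
        nlinarith
      · have := ht i (Finset.mem_range.1 hi)
        have := mul_pos hρ0 this
        linarith
    have h2 : ∏ _i ∈ Finset.range n, (M / 2) ≤ ∏ i ∈ Finset.range n, (M - t i) := by
      refine Finset.prod_le_prod (fun i _ => by positivity) (fun i hi => ?_)
      have := hS i (Finset.mem_range.1 hi)
      linarith
    rw [Finset.prod_const, Finset.card_range] at h1 h2
    rw [div_pow] at h2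
    have h3 : M ^ n < M * (M ^ n / 2 ^ n) := by
      have : 0 < M ^ n := by positivity
      rw [mul_div_assoc', lt_div_iff₀ h2n]
      nlinarith
    have h4 : M * (M ^ n / 2 ^ n) ≤ M * ∏ i ∈ Finset.range n, (M - t i) :=
      mul_le_mul_of_nonneg_left h2 hM0.le
    change 0 < M * ∏ i ∈ Finset.range n, (M - t i) - ∏ i ∈ Finset.range n, (M - ρ * t i)
    linarith
  -- the intervals
  set L : ℕ → ℝ := fun j => if j < n then t j else 0 with hL
  set U : ℕ → ℝ := fun j => if j = 0 then M else ρ * t (j - 1) with hU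
  have hL0 : ∀ j, 0 ≤ L j := by
    intro j
    simp only [hL]
    split_ifs with h
    · exact (ht j h).le
    · exact le_rfl
  have hLU : ∀ j ≤ n, L j < U j := by
    intro j hj
    simp only [hL, hU]
    split_ifs with h1 h2 h2
    · exact hMt j h1
    · exact hlt j (j - 1) (by omega) h1
    · exact hM0
    · exact mul_pos hρ0 (ht _ (by omega))
  have sL : ∀ j ≤ n, 0 < (-1 : ℝ) ^ (j + 1) * R (L j) := by
    intro j hj
    simp only [hL]
    split_ifs with h1
    · have h2 : ∏ i ∈ Finset.range n, (t j - t i) = 0 :=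
        Finset.prod_eq_zero (Finset.mem_range.2 h1) (sub_self _)
      have h3 := sign_lemma (fun i => ρ * t i) (t j) n j hj
        (fun i hi => hlt j i hi h1) (fun i hi hi' => by
          rcases Nat.lt_or_ge j i with h4 | h4
          · have h5 := hlt i j h4 hi'
            have h6 := ht i hi'
            have h7 := ht j h1
            have : ρ * t i < t i := by nlinarith
            have : ρ * t j < t j := by nlinarith
            linarith
          · obtain rfl : i = j := by omega
            have := ht i hi'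
            nlinarith)
      have h4 : (-1 : ℝ) ^ (j + 1) * R (t j) =
          (-1) ^ j * ∏ i ∈ Finset.range n, (t j - ρ * t i) := by
        simp only [hR]
        rw [h2]
        ring
      rw [h4]
      exact h3
    · obtain rfl : j = n := by omega
      have h3 := sign_lemma (fun i => ρ * t i) 0 j j le_rfl
        (fun i hi => mul_pos hρ0 (ht i hi)) (fun i hi hi' => by omega)
      have h4 : (-1 : ℝ) ^ (j + 1) * R 0 =
          (-1) ^ j * ∏ i ∈ Finset.range j, (0 - ρ * t i) := by
        simp only [hR]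
        ring
      rw [h4]
      exact h3
  have sU : ∀ j ≤ n, 0 < (-1 : ℝ) ^ j * R (U j) := by
    intro j hj
    simp only [hU]
    split_ifs with h1
    · subst h1
      simpa using hMR
    · obtain ⟨k, rfl⟩ : ∃ k, j = k + 1 := ⟨j - 1, by omega⟩
      rw [Nat.add_sub_cancel]
      have hk : k < n := by omega
      have h2 : ∏ i ∈ Finset.range n, (ρ * t k - ρ * t i) = 0 :=
        Finset.prod_eq_zero (Finset.mem_range.2 hk) (sub_self _)
      have h3 := sign_lemma t (ρ * t k) n (k + 1) hj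
        (fun i hi => by
          have h5 := ht k hk
          rcases Nat.lt_or_ge i k with h4 | h4
          · have := hdec i k h4 hk
            nlinarith
          · obtain rfl : i = k := by omega
            nlinarith) (fun i hi hi' => hlt i k (by omega) hi')
      have h4 : (-1 : ℝ) ^ (k + 1) * R (ρ * t k) =
          (ρ * t k) * ((-1) ^ (k + 1) * ∏ i ∈ Finset.range n, (ρ * t k - t i)) := by
        simp only [hR]
        rw [h2]
        ring
      rw [h4]
      exact mul_pos (mul_pos hρ0 (ht k hk)) h3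
  have hex : ∀ j ≤ n, ∃ x, L j < x ∧ x < U j ∧ R x = 0 := by
    intro j hj
    have h1 := hLU j hj
    have h2 := sL j hj
    have h3 := sU j hj
    have hc : ContinuousOn (fun x => (-1 : ℝ) ^ j * R x) (Set.Icc (L j) (U j)) :=
      (hcont.const_mul _).continuousOn
    have h4 : (0 : ℝ) ∈ Set.Ioo ((-1 : ℝ) ^ j * R (L j)) ((-1 : ℝ) ^ j * R (U j)) := by
      refine ⟨?_, h3⟩
      rw [pow_succ] at h2
      linarith
    obtain ⟨x, hx, hx'⟩ := intermediate_value_Ioo h1.le hc h4
    refine ⟨x, hx.1, hx.2, ?_⟩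
    have h5 : (-1 : ℝ) ^ j ≠ 0 := pow_ne_zero _ (by norm_num)
    exact (mul_eq_zero.1 hx').resolve_left h5
  choose! s hs1 hs2 hs3 using hex
  refine ⟨s, fun j hj => lt_of_le_of_lt (hL0 j) (hs1 j (by omega)), fun j hj => ?_,
    fun j hj => hs3 j (by omega)⟩
  have h1 := hs2 (j + 1) (by omega)
  have h2 := hs1 j (by omega)
  simp only [hU, hL, Nat.add_sub_cancel, if_neg (Nat.succ_ne_zero j)] at h1 h2
  rw [if_pos (by omega)] at h2
  nlinarith

/-- The step as a factorization. -/
theorem step {ρ : ℝ} (hρ0 : 0 < ρ) (hρ1 : ρ < 1) {n : ℕ} {t : ℕ → ℝ}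
    (ht : ∀ j < n, 0 < t j) (hsep : ∀ j, j + 1 < n → t (j + 1) < ρ * t j) :
    ∃ s : ℕ → ℝ, (∀ j < n + 1, 0 < s j) ∧ (∀ j, j + 1 < n + 1 → s (j + 1) < ρ * s j) ∧
      ∀ x : ℂ, x * ∏ i ∈ Finset.range n, (x - t i) - ∏ i ∈ Finset.range n, (x - ρ * t i) =
        ∏ i ∈ Finset.range (n + 1), (x - s i) := by
  obtain ⟨s, hs1, hs2, hs3⟩ := step_real hρ0 hρ1 ht hsep
  refine ⟨s, hs1, hs2, ?_⟩
  have hdec := sep_all hρ1 hs1 hs2
  have hinj : Set.InjOn s (Finset.range (n + 1)) := by
    intro i hi j hj hij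
    simp only [Finset.coe_range, Set.mem_Iio] at hi hj
    rcases lt_trichotomy i j with h | h | h
    · have h1 := hdec j i h hj
      have h2 := hs1 i hi
      exfalso
      nlinarith
    · exact h
    · have h1 := hdec i j h hi
      have h2 := hs1 j hj
      exfalso
      nlinarith
  have hA : (X * ∏ i ∈ Finset.range n, (X - C (t i)) : ℝ[X]).Monic :=
    monic_X.mul (monic_prod_of_monic _ _ fun i _ => monic_X_sub_C _)
  have hB : (∏ i ∈ Finset.range (n + 1), (X - C (s i)) : ℝ[X]).Monic :=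
    monic_prod_of_monic _ _ fun i _ => monic_X_sub_C _
  have hC : (∏ i ∈ Finset.range n, (X - C (ρ * t i)) : ℝ[X]).Monic :=
    monic_prod_of_monic _ _ fun i _ => monic_X_sub_C _
  have dA : (X * ∏ i ∈ Finset.range n, (X - C (t i)) : ℝ[X]).natDegree = n + 1 := by
    rw [natDegree_X_mul (monic_prod_of_monic _ _ fun i _ => monic_X_sub_C _).ne_zero,
      natDegree_finsetProd_X_sub_C_eq_card, Finset.card_range]
  have dB : (∏ i ∈ Finset.range (n + 1), (X - C (s i)) : ℝ[X]).natDegree = n + 1 := by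
    rw [natDegree_finsetProd_X_sub_C_eq_card, Finset.card_range]
  have dC : (∏ i ∈ Finset.range n, (X - C (ρ * t i)) : ℝ[X]).natDegree = n := by
    rw [natDegree_finsetProd_X_sub_C_eq_card, Finset.card_range]
  have hpoly : (X * ∏ i ∈ Finset.range n, (X - C (t i)) - ∏ i ∈ Finset.range n, (X - C (ρ * t i)) :
      ℝ[X]) = ∏ i ∈ Finset.range (n + 1), (X - C (s i)) := by
    refine Polynomial.eq_of_degree_sub_lt_of_eval_index_eq (v := s) (Finset.range (n + 1)) hinj
      ?_ ?_
    · rw [Finset.card_range]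
      have e1 : (X * ∏ i ∈ Finset.range n, (X - C (t i)) -
          ∏ i ∈ Finset.range n, (X - C (ρ * t i)) - ∏ i ∈ Finset.range (n + 1), (X - C (s i)) :
          ℝ[X]) = (X * ∏ i ∈ Finset.range n, (X - C (t i)) -
          ∏ i ∈ Finset.range (n + 1), (X - C (s i))) - ∏ i ∈ Finset.range n, (X - C (ρ * t i)) := by
        ring
      rw [e1]
      refine (degree_sub_le _ _).trans_lt (max_lt ?_ ?_)
      · have h1 := degree_sub_lt_left (p := (X * ∏ i ∈ Finset.range n, (X - C (t i)) : ℝ[X]))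
          (q := ∏ i ∈ Finset.range (n + 1), (X - C (s i)))
          (by rw [degree_eq_natDegree hA.ne_zero, degree_eq_natDegree hB.ne_zero, dA, dB])
          hA.ne_zero (by rw [hA.leadingCoeff, hB.leadingCoeff])
        rw [degree_eq_natDegree hA.ne_zero, dA] at h1
        exact h1
      · rw [degree_eq_natDegree hC.ne_zero, dC]
        exact_mod_cast Nat.lt_succ_self n
    · intro j hj
      have h1 := hs3 j (Finset.mem_range.1 hj)
      simp only [eval_sub, eval_mul, eval_X, eval_prod, eval_C]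
      rw [Finset.prod_eq_zero (f := fun i => s j - s i) hj (sub_self _)]
      exact h1
  intro x
  have h1 := congrArg (Polynomial.aeval x) hpoly
  simpa [map_prod] using h1

/-- The polynomials `∑ C(n,k) q^(k(k-1)/2) x^k`. -/
noncomputable def E (q : ℂ) (n : ℕ) (x : ℂ) : ℂ :=
  ∑ k ∈ Finset.range (n + 1), (n.choose k : ℂ) * q ^ (k * (k - 1) / 2) * x ^ k

theorem E_succ (q : ℂ) (n : ℕ) (x : ℂ) : E q (n + 1) x = E q n x + x * E q n (q * x) := by
  unfold E
  rw [Finset.sum_range_succ']
  have h1 : ∀ k ∈ Finset.range (n + 1), ((n + 1).choose (k + 1) : ℂ) *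
      q ^ ((k + 1) * (k + 1 - 1) / 2) * x ^ (k + 1) =
      x * ((n.choose k : ℂ) * q ^ (k * (k - 1) / 2) * (q * x) ^ k) +
      (n.choose (k + 1) : ℂ) * q ^ ((k + 1) * (k + 1 - 1) / 2) * x ^ (k + 1) := by
    intro k _
    rw [Nat.choose_succ_succ, Nat.triangle_succ, pow_add, mul_pow]
    push_cast
    ring
  rw [Finset.sum_congr rfl h1, Finset.sum_add_distrib, ← Finset.mul_sum]
  have h2 : ∑ k ∈ Finset.range (n + 1), (n.choose k : ℂ) * q ^ (k * (k - 1) / 2) * x ^ k =
      ∑ k ∈ Finset.range (n + 1), (n.choose (k + 1) : ℂ) * q ^ ((k + 1) * (k + 1 - 1) / 2) *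
        x ^ (k + 1) + (n.choose 0 : ℂ) * q ^ (0 * (0 - 1) / 2) * x ^ 0 := by
    rw [← Finset.sum_range_succ' (fun k => (n.choose k : ℂ) * q ^ (k * (k - 1) / 2) * x ^ k),
      Finset.sum_range_succ (fun k => (n.choose k : ℂ) * q ^ (k * (k - 1) / 2) * x ^ k) (n + 1),
      Nat.choose_succ_self]
    simp
  rw [h2]
  simp only [Nat.choose_zero_right]
  ring

/-- Real rootedness with separated zeros. -/
theorem rooted {ρ : ℝ} (hρ0 : 0 < ρ) (hρ1 : ρ < 1) (n : ℕ) :
    ∃ t : ℕ → ℝ, (∀ j < n, 0 < t j) ∧ (∀ j, j + 1 < n → t (j + 1) < ρ * t j) ∧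
      ∀ x : ℂ, E ρ n x = ∏ j ∈ Finset.range n, (1 + t j * x) := by
  induction n with
  | zero => exact ⟨fun _ => 1, by simp, by simp, by simp [E]⟩
  | succ n ih =>
    obtain ⟨t, ht, hsep, he⟩ := ih
    obtain ⟨s, hs1, hs2, hs3⟩ := step hρ0 hρ1 ht hsep
    refine ⟨s, hs1, hs2, fun x => ?_⟩
    rw [E_succ, he, he]
    rcases eq_or_ne x 0 with rfl | hx
    · simp
    · have h1 := hs3 (-1 / x)
      have k1 : ∀ (m : ℕ) (a : ℕ → ℂ), ∏ i ∈ Finset.range m, (-1 / x - a i) =
          (-1 / x) ^ m * ∏ i ∈ Finset.range m, (1 + a i * x) := by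
        intro m a
        rw [← Finset.card_range m, ← Finset.prod_const, Finset.card_range,
          ← Finset.prod_mul_distrib]
        refine Finset.prod_congr rfl fun i _ => ?_
        field_simp
        ring
      rw [k1 n (fun i => (t i : ℂ)), k1 n (fun i => (ρ : ℂ) * t i), k1 (n + 1) (fun i => (s i : ℂ)),
        pow_succ] at h1
      have h2 : (-1 / x) ^ n ≠ 0 := pow_ne_zero _ (div_ne_zero (by norm_num) hx)
      have h3 : ∏ i ∈ Finset.range n, (1 + (t i : ℂ) * (ρ * x)) =
          ∏ i ∈ Finset.range n, (1 + (ρ : ℂ) * t i * x) :=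
        Finset.prod_congr rfl fun i _ => by ring
      rw [h3]
      have h4 : (-1 / x) ^ n * (-1 / x) * (∏ i ∈ Finset.range n, (1 + (t i : ℂ) * x) +
          x * ∏ i ∈ Finset.range n, (1 + (ρ : ℂ) * t i * x)) =
          (-1 / x) ^ n * (-1 / x) * ∏ i ∈ Finset.range (n + 1), (1 + (s i : ℂ) * x) := by
        rw [← h1]
        field_simp
        ring
      exact mul_left_cancel₀ (mul_ne_zero h2 (div_ne_zero (by norm_num) hx)) h4

theorem coeffs (t : ℕ → ℝ) (n : ℕ) :
    (∏ j ∈ Finset.range n, (1 + C (t j : ℂ) * X) : ℂ[X]).coeff 0 = 1 ∧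
    (∏ j ∈ Finset.range n, (1 + C (t j : ℂ) * X) : ℂ[X]).coeff 1 =
      ((∑ j ∈ Finset.range n, t j : ℝ) : ℂ) ∧
    2 * (∏ j ∈ Finset.range n, (1 + C (t j : ℂ) * X) : ℂ[X]).coeff 2 =
      (((∑ j ∈ Finset.range n, t j) ^ 2 - ∑ j ∈ Finset.range n, t j ^ 2 : ℝ) : ℂ) := by
  induction n with
  | zero => simp [coeff_one]
  | succ n ih =>
    obtain ⟨h0, h1, h2⟩ := ih
    rw [Finset.prod_range_succ, Finset.sum_range_succ, Finset.sum_range_succ]
    set p : ℂ[X] := ∏ j ∈ Finset.range n, (1 + C (t j : ℂ) * X) with hp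
    have e : p * (1 + C (t n : ℂ) * X) = p + C (t n : ℂ) * (p * X) := by ring
    rw [e]
    simp only [coeff_add, coeff_C_mul]
    have m0 : (p * X).coeff 0 = 0 := by simp
    have m1 : (p * X).coeff 1 = p.coeff 0 := coeff_mul_X p 0
    have m2 : (p * X).coeff 2 = p.coeff 1 := coeff_mul_X p 1
    rw [m0, m1, m2, mul_add, h2, h0, h1]
    refine ⟨by ring, by push_cast; ring, ?_⟩
    push_cast
    ring

/-- The first two power sums. -/
theorem power_sums {ρ : ℝ} {n : ℕ} {t : ℕ → ℝ}
    (h : ∀ x : ℂ, E ρ n x = ∏ j ∈ Finset.range n, (1 + t j * x)) :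
    ∑ j ∈ Finset.range n, t j = n ∧
      ∑ j ∈ Finset.range n, t j ^ 2 = (n : ℝ) ^ 2 - n * (n - 1) * ρ := by
  obtain ⟨-, h1, h2⟩ := coeffs t n
  have hp : (∏ j ∈ Finset.range n, (1 + C (t j : ℂ) * X) : ℂ[X]) =
      ∑ k ∈ Finset.range (n + 1), C ((n.choose k : ℂ) * (ρ : ℂ) ^ (k * (k - 1) / 2)) * X ^ k := by
    refine Polynomial.funext fun x => ?_
    rw [eval_prod, eval_finsetSum]
    simp only [eval_add, eval_one, eval_mul, eval_C, eval_X, eval_pow]
    exact (h x).symm
  have c1 : (∏ j ∈ Finset.range n, (1 + C (t j : ℂ) * X) : ℂ[X]).coeff 1 = n := by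
    rw [hp, finsetSum_coeff]
    simp only [coeff_C_mul_X_pow]
    rcases Nat.eq_zero_or_pos n with rfl | hn
    · simp
    · rw [Finset.sum_eq_single 1]
      · simp
      · intro b _ hb
        rw [if_neg (fun h => hb h.symm)]
      · intro hb
        exact absurd (Finset.mem_range.2 (by omega)) hb
  have c2 : 2 * (∏ j ∈ Finset.range n, (1 + C (t j : ℂ) * X) : ℂ[X]).coeff 2 =
      n * (n - 1) * ρ := by
    rw [hp, finsetSum_coeff]
    simp only [coeff_C_mul_X_pow]
    rcases Nat.lt_or_ge n 2 with hn | hn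
    · rw [Finset.sum_eq_zero]
      · interval_cases n <;> simp
      · intro k hk
        have := Finset.mem_range.1 hk
        rw [if_neg (by omega)]
    · rw [Finset.sum_eq_single 2]
      · rw [if_pos rfl, Nat.cast_choose_two]
        norm_num
        ring
      · intro b _ hb
        rw [if_neg (fun h => hb h.symm)]
      · intro hb
        exact absurd (Finset.mem_range.2 (by omega)) hb
  rw [h1] at c1
  rw [h2] at c2
  have d1 : ∑ j ∈ Finset.range n, t j = n := by exact_mod_cast c1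
  refine ⟨d1, ?_⟩
  have d2 : (∑ j ∈ Finset.range n, t j) ^ 2 - ∑ j ∈ Finset.range n, t j ^ 2 =
      (n : ℝ) * (n - 1) * ρ := by exact_mod_cast c2
  rw [d1] at d2
  linarith

end SokalRay
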