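import Pool.Agent.Lib_MP_af4de1_Ray.Operator

/-!
# Zeros of `T f` for real rooted `f`: positivity and the lower bound for the derivative
-/

namespace SokalRay

open InnerProductGeometry Real Filter Topology

variable {ω : ℂ}

theorem inner_eq (x y : ℂ) : inner ℝ x y = x.re * y.re + x.im * y.im := by
  rw [Complex.inner]
  simp
  ring

theorem inner_key {x₀ x₁ x₂ : ℂ} {a b : ℝ} (ha : 0 < a) (hb : 0 < b)
    (h : x₀ + (a + b) * x₁ + a * b * x₂ = 0) (hi : inner ℝ x₀ x₂ ≤ ‖x₁‖ ^ 2) :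
    0 ≤ inner ℝ (x₀ + b * x₁) (x₀ + a * x₁) := by
  have hre := congrArg Complex.re h
  have him := congrArg Complex.im h
  simp only [Complex.add_re, Complex.mul_re, Complex.add_im, Complex.mul_im, Complex.ofReal_re,
    Complex.ofReal_im, Complex.zero_re, Complex.zero_im] at hre him
  ring_nf at hre him
  rw [inner_eq, Complex.sq_norm, Complex.normSq_apply] at hi
  rw [inner_eq]
  simp only [Complex.add_re, Complex.mul_re, Complex.add_im, Complex.mul_im, Complex.ofReal_re,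
    Complex.ofReal_im]
  have hab : 0 < a * b := mul_pos ha hb
  have key : (x₀.re + (b * x₁.re - 0 * x₁.im)) * (x₀.re + (a * x₁.re - 0 * x₁.im)) +
      (x₀.im + (b * x₁.im + 0 * x₁.re)) * (x₀.im + (a * x₁.im + 0 * x₁.re)) =
      a * b * (x₁.re * x₁.re + x₁.im * x₁.im - (x₀.re * x₂.re + x₀.im * x₂.im)) := by
    linear_combination x₀.re * hre + x₀.im * him
  rw [key]
  exact mul_nonneg hab.le (by linarith)

theorem inner_nonpos {x₀ x₁ x₂ c : ℂ} {a b : ℝ} (ha : 0 < a) (hb : 0 < b)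
    (h : x₀ + (a + b) * x₁ + a * b * x₂ = 0) (h0 : x₀ ≠ 0) (h2 : x₂ ≠ 0)
    (hS : angle x₀ x₁ + angle x₁ x₂ + angle x₂ (c * x₀) ≤ 4 * π / 3 + angle 1 c / 3) :
    inner ℝ x₀ x₂ ≤ 0 := by
  have hab : 0 < a * b := mul_pos ha hb
  have hab' : 0 < a + b := by linarith
  have e1 : x₀ + (a * b) • x₂ = -((a + b) • x₁) := by
    simp only [Complex.real_smul]
    push_cast
    linear_combination h
  have k1 := angle_split (x := x₀) h2 hab
  rw [e1] at k1
  rw [angle_neg_right, angle_neg_left, angle_smul_right_of_pos _ _ hab',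
    angle_smul_left_of_pos _ _ hab'] at k1
  have k2 : angle 1 c = angle x₀ (c * x₀) := by
    have := Complex.angle_mul_right h0 1 c
    rw [one_mul] at this
    exact this.symm
  have k3 := angle_le_angle_add_angle x₀ x₂ (c * x₀)
  have k4 := angle_nonneg x₂ (c * x₀)
  have k5 : π / 2 ≤ angle x₀ x₂ := by linarith
  have k6 : cos (angle x₀ x₂) ≤ 0 :=
    cos_nonpos_of_pi_div_two_le_of_le k5 (by linarith [angle_le_pi x₀ x₂, pi_pos])
  rw [← cos_angle_mul_norm_mul_norm]
  exact mul_nonpos_of_nonpos_of_nonneg k6 (by positivity)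

/-- At a zero of `T f` the numbers `T (f / (1 + t l x))` have pairwise nonnegative inner
products. -/
theorem pair (hω : ω ^ 2 + ω + 1 = 0) (t : ℕ → ℝ) {s : Finset ℕ} {a b : ℕ} (hab : a ≠ b)
    (ha : a ∉ s) (hb : b ∉ s) (hta : 0 < t a) (htb : 0 < t b) (hs : ∀ j ∈ s, 0 < t j) {w : ℂ}
    (h : P ω t (insert a (insert b s)) w = 0) :
    0 ≤ inner ℝ (P ω t (insert b s) w) (P ω t (insert a s) w) := by
  have hω0 := omega_ne_zero hω
  have hw : w ≠ 0 := by
    rintro rfl
    rw [P_zero hω] at h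
    exact one_ne_zero h
  have ha' : a ∉ insert b s := by
    simp [hab, ha]
  rw [P_insert hω t ha', P_insert hω t hb, P_insert hω t hb, rot2] at h
  rw [P_insert hω t hb, P_insert hω t ha]
  refine inner_key (x₂ := ω * w ^ 2 * P ω t s (ω ^ 2 * w)) hta htb
    (by linear_combination h) ?_
  by_cases c0 : P ω t s w = 0
  · rw [c0, inner_zero_left]; positivity
  by_cases c2 : P ω t s (ω ^ 2 * w) = 0
  · rw [c2, mul_zero, inner_zero_right]; positivity
  by_cases c1 : P ω t s (ω * w) = 0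
  · rw [c1] at h
    have e : P ω t s w = (-(t a * t b) : ℝ) • (ω * w ^ 2 * P ω t s (ω ^ 2 * w)) := by
      rw [Complex.real_smul]
      push_cast
      linear_combination h
    rw [e, real_inner_smul_left]
    have := real_inner_self_nonneg (x := ω * w ^ 2 * P ω t s (ω ^ 2 * w))
    have h5 : 0 < t a * t b := mul_pos hta htb
    nlinarith [sq_nonneg ‖w * P ω t s (ω * w)‖]
  · refine (inner_nonpos (c := w ^ 3) (x₁ := w * P ω t s (ω * w)) hta htb
      (by linear_combination h) c0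
      (mul_ne_zero (mul_ne_zero hω0 (pow_ne_zero 2 hw)) c2) ?_).trans (by positivity)
    exact (S_le hω t s hs w hw c0 c1 c2).trans (N₀_le hω hw)

theorem pair' (hω : ω ^ 2 + ω + 1 = 0) (t : ℕ → ℝ) {s : Finset ℕ} (hs : ∀ j ∈ s, 0 < t j)
    {w : ℂ} (h : P ω t s w = 0) {a b : ℕ} (ha : a ∈ s) (hb : b ∈ s) :
    0 ≤ inner ℝ (P ω t (s.erase a) w) (P ω t (s.erase b) w) := by
  by_cases hab : a = b
  · subst hab
    exact real_inner_self_nonneg
  · set u := (s.erase a).erase b with hu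
    have hau : a ∉ u := by simp [hu]
    have hbu : b ∉ u := by simp [hu]
    have e1 : insert b u = s.erase a :=
      Finset.insert_erase (Finset.mem_erase.2 ⟨fun h => hab h.symm, hb⟩)
    have e2 : insert a u = s.erase b := by
      rw [hu, Finset.erase_right_comm]
      exact Finset.insert_erase (Finset.mem_erase.2 ⟨hab, ha⟩)
    have e3 : insert a (insert b u) = s := by rw [e1, Finset.insert_erase ha]
    rw [← e1, ← e2]
    exact pair hω t hab hau hbu (hs a ha) (hs b hb)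
      (fun j hj => hs j (Finset.mem_of_mem_erase (Finset.mem_of_mem_erase hj))) (by rw [e3, h])

theorem hasDerivAt_f (t : ℕ → ℝ) (s : Finset ℕ) (x : ℂ) :
    HasDerivAt (f t s) (∑ l ∈ s, t l * f t (s.erase l) x) x := by
  have h := HasDerivAt.fun_finsetProd (u := s) (f := fun j (x : ℂ) => 1 + t j * x)
    (f' := fun j => (t j : ℂ)) (x := x) fun j _ => by
      have := (((hasDerivAt_id x).const_mul (t j : ℂ)).const_add 1)
      rwa [mul_one] at this
  refine h.congr_deriv ?_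
  refine Finset.sum_congr rfl fun l _ => ?_
  rw [smul_eq_mul, mul_comm]
  rfl

theorem D_f (t : ℕ → ℝ) (s : Finset ℕ) (x : ℂ) :
    x * ∑ l ∈ s, t l * f t (s.erase l) x = ∑ l ∈ s, (f t s x - f t (s.erase l) x) := by
  rw [Finset.mul_sum]
  refine Finset.sum_congr rfl fun l hl => ?_
  have : f t s x = (1 + t l * x) * f t (s.erase l) x := by
    unfold f
    rw [Finset.mul_prod_erase s (fun j => 1 + (t j : ℂ) * x) hl]
  rw [this]
  ring

/-- The derivative of `T f`. -/
theorem D_P (t : ℕ → ℝ) (s : Finset ℕ) (w : ℂ) :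
    w * deriv (P ω t s) w = ∑ l ∈ s, (P ω t s w - P ω t (s.erase l) w) := by
  have hd : ∀ c : ℂ, HasDerivAt (fun u => f t s (c * u))
      ((∑ l ∈ s, t l * f t (s.erase l) (c * w)) * c) w := by
    intro c
    have h2 : HasDerivAt (fun u : ℂ => c * u) c w := by
      have := (hasDerivAt_id w).const_mul c
      rwa [mul_one] at this
    exact (hasDerivAt_f t s (c * w)).comp w h2
  have h1 := (((hasDerivAt_f t s w).const_mul ((2 + ω) / 3)).add
    ((hd ω).const_mul ((1 + 2 * ω ^ 2) / 3))).add ((hd (ω ^ 2)).const_mul ((2 + ω) / 3))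
  have h2 : deriv (P ω t s) w = _ := h1.deriv
  rw [h2]
  have e1 : ∀ l, P ω t s w - P ω t (s.erase l) w =
      (2 + ω) / 3 * (f t s w - f t (s.erase l) w) +
      (1 + 2 * ω ^ 2) / 3 * (f t s (ω * w) - f t (s.erase l) (ω * w)) +
      (2 + ω) / 3 * (f t s (ω ^ 2 * w) - f t (s.erase l) (ω ^ 2 * w)) := by
    intro l
    unfold P T
    ring
  simp only [e1]
  rw [Finset.sum_add_distrib, Finset.sum_add_distrib, ← Finset.mul_sum, ← Finset.mul_sum,
    ← Finset.mul_sum, ← D_f, ← D_f, ← D_f]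
  ring

theorem inner_deriv_ge (hω : ω ^ 2 + ω + 1 = 0) (t : ℕ → ℝ) {s : Finset ℕ}
    (hs : ∀ j ∈ s, 0 < t j) {w : ℂ} (h : P ω t s w = 0) {l : ℕ} (hl : l ∈ s) :
    ‖P ω t (s.erase l) w‖ ^ 2 ≤
      inner ℝ (P ω t (s.erase l) w) (-(w * deriv (P ω t s) w)) := by
  have h1 : w * deriv (P ω t s) w = -∑ l ∈ s, P ω t (s.erase l) w := by
    rw [D_P, h]
    simp
  rw [h1, neg_neg, inner_sum, ← real_inner_self_eq_norm_sq]
  exact Finset.single_le_sum (f := fun j => inner ℝ (P ω t (s.erase l) w) (P ω t (s.erase j) w))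
    (fun j hj => pair' hω t hs h hl hj) hl

/-- At a zero of `T f` the derivative is at least as large as each of its parts. -/
theorem norm_deriv_ge (hω : ω ^ 2 + ω + 1 = 0) (t : ℕ → ℝ) {s : Finset ℕ}
    (hs : ∀ j ∈ s, 0 < t j) {w : ℂ} (h : P ω t s w = 0) {l : ℕ} (hl : l ∈ s) :
    ‖P ω t (s.erase l) w‖ ≤ ‖w * deriv (P ω t s) w‖ := by
  have h2 := inner_deriv_ge hω t hs h hl
  rw [← norm_neg (w * deriv (P ω t s) w)]
  set X := P ω t (s.erase l) w with hX
  have h3 := real_inner_le_norm X (-(w * deriv (P ω t s) w))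
  by_contra h4
  push Not at h4
  have h5 : 0 < ‖X‖ := lt_of_le_of_lt (norm_nonneg _) h4
  nlinarith

/-- At a zero `w` of `G = T f` the number `w G(ω w)` has positive inner product with the
derivative. -/
theorem inner_next (hω : ω ^ 2 + ω + 1 = 0) (t : ℕ → ℝ) {s : Finset ℕ}
    (hs : ∀ j ∈ s, 0 < t j) {w : ℂ} (h : P ω t s w = 0) {l : ℕ} (hl : l ∈ s) :
    ‖P ω t (s.erase l) w‖ ^ 2 / t l ≤
      inner ℝ (P ω t (s.erase l) w) (-(w * P ω t s (ω * w))) := by
  have hω0 := omega_ne_zero hω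
  have hw : w ≠ 0 := by
    rintro rfl
    rw [P_zero hω] at h
    exact one_ne_zero h
  have htl := hs l hl
  have hlu : l ∉ s.erase l := Finset.notMem_erase l s
  have e1 : P ω t s w = P ω t (s.erase l) w + t l * (w * P ω t (s.erase l) (ω * w)) := by
    conv_lhs => rw [← Finset.insert_erase hl]
    exact P_insert hω t hlu w
  have e2 : P ω t s (ω * w) = P ω t (s.erase l) (ω * w) +
      t l * (ω * w * P ω t (s.erase l) (ω ^ 2 * w)) := by
    conv_lhs => rw [← Finset.insert_erase hl]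
    rw [P_insert hω t hlu (ω * w), rot2]
  rw [h] at e1
  rw [e2]
  have hsu : ∀ j ∈ s.erase l, 0 < t j := fun j hj => hs j (Finset.mem_of_mem_erase hj)
  have hS := S_le hω t (s.erase l) hsu w hw
  set A := P ω t (s.erase l) w with hA
  set B := P ω t (s.erase l) (ω * w) with hB
  set D := P ω t (s.erase l) (ω ^ 2 * w) with hD
  have hx : w * B = (-(1 / t l) : ℝ) • A := by
    rw [Complex.real_smul]
    have : (t l : ℂ) ≠ 0 := by exact_mod_cast htl.ne'
    push_cast
    field_simp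
    linear_combination -e1
  have key : inner ℝ A (ω * w ^ 2 * D) ≤ 0 := by
    by_cases c0 : A = 0
    · rw [c0, inner_zero_left]
    by_cases c2 : D = 0
    · rw [c2, mul_zero, inner_zero_right]
    have c1 : B ≠ 0 := by
      intro hB0
      rw [hB0, mul_zero, mul_zero, add_zero] at e1
      exact c0 e1.symm
    have hS' := (hS c0 c1 c2).trans (N₀_le hω hw)
    unfold S at hS'
    rw [← hA, ← hB, ← hD] at hS'
    have a1 : angle A (w * B) = π := by
      rw [hx, angle_smul_right_of_neg _ _ (by rw [neg_lt_zero]; positivity), angle_neg_right,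
        angle_self c0, sub_zero]
    have a2 : angle (w * B) (ω * w ^ 2 * D) = π - angle A (ω * w ^ 2 * D) := by
      rw [hx, angle_smul_left_of_neg _ _ (by rw [neg_lt_zero]; positivity), angle_neg_left]
    have a3 : angle 1 (w ^ 3) = angle A (w ^ 3 * A) := by
      have := Complex.angle_mul_right c0 1 (w ^ 3)
      rw [one_mul] at this
      exact this.symm
    have a4 := angle_le_angle_add_angle A (ω * w ^ 2 * D) (w ^ 3 * A)
    have a5 := angle_nonneg (ω * w ^ 2 * D) (w ^ 3 * A)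
    have k5 : π / 2 ≤ angle A (ω * w ^ 2 * D) := by linarith
    have k6 : cos (angle A (ω * w ^ 2 * D)) ≤ 0 :=
      cos_nonpos_of_pi_div_two_le_of_le k5
        (by linarith [angle_le_pi A (ω * w ^ 2 * D), pi_pos])
    rw [← cos_angle_mul_norm_mul_norm]
    exact mul_nonpos_of_nonpos_of_nonneg k6 (by positivity)
  have e3 : -(w * (B + t l * (ω * w * D))) = (1 / t l : ℝ) • A - (t l : ℝ) • (ω * w ^ 2 * D) := by
    have : -(w * (B + t l * (ω * w * D))) = -(w * B) - (t l : ℝ) • (ω * w ^ 2 * D) := by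
      rw [Complex.real_smul]
      ring
    rw [this, hx, neg_smul, neg_neg]
  rw [e3, inner_sub_right, real_inner_smul_right, real_inner_smul_right,
    real_inner_self_eq_norm_sq]
  have : t l * inner ℝ A (ω * w ^ 2 * D) ≤ 0 := mul_nonpos_of_nonneg_of_nonpos htl.le key
  rw [one_div, inv_mul_eq_div]
  linarith

theorem inner_next_ge (hω : ω ^ 2 + ω + 1 = 0) (t : ℕ → ℝ) {s : Finset ℕ}
    (hs : ∀ j ∈ s, 0 < t j) {w : ℂ} (h : P ω t s w = 0) {l : ℕ} (hl : l ∈ s) :
    ‖P ω t (s.erase l) w‖ ^ 2 / t l ≤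
      inner ℝ (w * deriv (P ω t s) w) (w * P ω t s (ω * w)) := by
  have h1 : w * deriv (P ω t s) w = -∑ l ∈ s, P ω t (s.erase l) w := by
    rw [D_P, h]
    simp
  rw [h1, inner_neg_left, ← inner_neg_right, sum_inner]
  refine (inner_next hω t hs h hl).trans ?_
  exact Finset.single_le_sum
    (f := fun j => inner ℝ (P ω t (s.erase j) w) (-(w * P ω t s (ω * w))))
    (fun j hj => le_trans (div_nonneg (sq_nonneg _) (hs j hj).le) (inner_next hω t hs h hj)) hl

/-- The inversion of `T` and the near and far points: if two values of `T g` on an orbit are small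
then the values of `g` on the orbit have almost the same modulus. -/
theorem inverse (hω : ω ^ 2 + ω + 1 = 0) (g : ℂ → ℂ) (w u v : ℂ)
    (hu : u = w ∨ u = ω * w ∨ u = ω ^ 2 * w) (hv : v = w ∨ v = ω * w ∨ v = ω ^ 2 * w) :
    ‖g u‖ - ‖g v‖ ≤ 2 * (‖T ω g w‖ + ‖T ω g (ω * w)‖) := by
  have h1 := omega_norm hω
  have h3 := omega_cube hω
  have hω0 := omega_ne_zero hω
  set A := T ω g w with hA
  set B := T ω g (ω * w) with hB
  set E := T ω g (ω ^ 2 * w) with hE
  set p : ℂ := (2 + ω ^ 2) / 3 with hp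
  set r : ℂ := (1 + 2 * ω) / 3 with hr
  have hpr : p = ω ^ 2 * r := by
    rw [hp, hr]
    linear_combination (-2 / 3) * h3
  have hnp : ‖p‖ = ‖r‖ := by rw [hpr, norm_mul, norm_pow, h1]; ring
  have hr1 : ‖r‖ ≤ 1 := by
    rw [hr, norm_div]
    have : ‖(1 : ℂ) + 2 * ω‖ ≤ 3 := by
      refine (norm_add_le _ _).trans ?_
      rw [norm_mul, h1]
      norm_num
    rw [div_le_one (by norm_num)]
    simpa using this
  have e0 : g w = p * A + p * B + r * E := by
    rw [hA, hB, hE, T_rot hω, T_rot' hω, T, hp, hr]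
    have h6 : ω ^ 2 = -1 - ω := by linear_combination hω
    ring_nf
    simp only [show ω ^ 4 = ω by linear_combination ω * h3, h3, h6]
    ring
  have e1 : g (ω * w) = p * B + p * E + r * A := by
    rw [hA, hB, hE, T_rot hω, T_rot' hω, T, hp, hr]
    have h6 : ω ^ 2 = -1 - ω := by linear_combination hω
    ring_nf
    simp only [show ω ^ 4 = ω by linear_combination ω * h3, h3, h6]
    ring
  have e2 : g (ω ^ 2 * w) = p * E + p * A + r * B := by
    rw [hA, hB, hE, T_rot hω, T_rot' hω, T, hp, hr]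
    have h6 : ω ^ 2 = -1 - ω := by linear_combination hω
    ring_nf
    simp only [show ω ^ 4 = ω by linear_combination ω * h3, h3, h6]
    ring
  have bA := norm_nonneg A
  have bB := norm_nonneg B
  have bE := norm_nonneg E
  have key : ∀ z, (z = w ∨ z = ω * w ∨ z = ω ^ 2 * w) →
      ‖g z‖ ≤ ‖r‖ * ‖E‖ + (‖A‖ + ‖B‖) ∧ ‖r‖ * ‖E‖ - (‖A‖ + ‖B‖) ≤ ‖g z‖ := by
    intro z hz
    have main : ∀ x y z' : ℂ, ‖x‖ = ‖r‖ → ‖y‖ = ‖r‖ → ‖z'‖ = ‖r‖ →
        ‖x * E + (y * A + z' * B)‖ ≤ ‖r‖ * ‖E‖ + (‖A‖ + ‖B‖) ∧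
        ‖r‖ * ‖E‖ - (‖A‖ + ‖B‖) ≤ ‖x * E + (y * A + z' * B)‖ := by
      intro x y z' hx hy hz'
      have q1 : ‖y * A + z' * B‖ ≤ ‖A‖ + ‖B‖ := by
        refine (norm_add_le _ _).trans ?_
        rw [norm_mul, norm_mul, hy, hz']
        nlinarith
      constructor
      · refine (norm_add_le _ _).trans ?_
        rw [norm_mul, hx]
        linarith
      · have := norm_sub_le (x * E + (y * A + z' * B)) (y * A + z' * B)
        rw [add_sub_cancel_right, norm_mul, hx] at this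
        linarith
    rcases hz with rfl | rfl | rfl
    · rw [e0, show p * A + p * B + r * E = r * E + (p * A + p * B) by ring]
      exact main _ _ _ rfl hnp hnp
    · rw [e1, show p * B + p * E + r * A = p * E + (r * A + p * B) by ring]
      exact main _ _ _ hnp rfl hnp
    · rw [e2, show p * E + p * A + r * B = p * E + (p * A + r * B) by ring]
      exact main _ _ _ hnp hnp rfl
  have k1 := (key u hu).1
  have k2 := (key v hv).2
  linarith

/-- A near and a far point of the orbit. -/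
theorem near_far (hω : ω ^ 2 + ω + 1 = 0) {w : ℂ} (hw : w ≠ 0) :
    ∃ u v : ℂ, (u = w ∨ u = ω * w ∨ u = ω ^ 2 * w) ∧ (v = w ∨ v = ω * w ∨ v = ω ^ 2 * w) ∧
      ‖u‖ = ‖w‖ ∧ ‖v‖ = ‖w‖ ∧ ‖w‖ / 2 ≤ u.re ∧ v.re ≤ -(‖w‖ / 4) := by
  have h1 := omega_norm hω
  obtain ⟨u, hu, hu0, hu1, hu2⟩ := exists_near hω hw
  rw [rot2] at hu
  have hnu : ‖u‖ = ‖w‖ := by
    rcases hu with rfl | rfl | rfl
    · rfl
    · rw [norm_mul, h1, one_mul]
    · rw [norm_mul, norm_pow, h1, one_pow, one_mul]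
  have hre : ‖w‖ / 2 ≤ u.re := by
    have h4 : cos u.arg = u.re / ‖u‖ := Complex.cos_arg hu0
    have h5 : 1 / 2 ≤ cos u.arg := by
      rw [← cos_pi_div_three, ← cos_abs u.arg]
      exact cos_le_cos_of_nonneg_of_le_pi (abs_nonneg _) (by linarith [pi_pos])
        (abs_le.2 ⟨hu1.le, hu2⟩)
    have h6 : 0 < ‖u‖ := norm_pos_iff.2 hu0
    rw [h4, le_div_iff₀ h6, hnu] at h5
    linarith
  have hsum : w.re + (ω * w).re + (ω ^ 2 * w).re = 0 := by
    rw [← Complex.add_re, ← Complex.add_re]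
    have : w + ω * w + ω ^ 2 * w = 0 := by linear_combination w * hω
    rw [this, Complex.zero_re]
  have n1 : ‖ω * w‖ = ‖w‖ := by rw [norm_mul, h1, one_mul]
  have n2 : ‖ω ^ 2 * w‖ = ‖w‖ := by rw [norm_mul, norm_pow, h1, one_pow, one_mul]
  rcases hu with rfl | rfl | rfl
  · rcases le_total (ω * u).re (ω ^ 2 * u).re with c | c
    · exact ⟨u, ω * u, by simp, by simp, rfl, n1, hre, by linarith⟩
    · exact ⟨u, ω ^ 2 * u, by simp, by simp, rfl, n2, hre, by linarith⟩
  · rcases le_total w.re (ω ^ 2 * w).re with c | c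
    · exact ⟨ω * w, w, by simp, by simp, n1, rfl, hre, by linarith⟩
    · exact ⟨ω * w, ω ^ 2 * w, by simp, by simp, n1, n2, hre, by linarith⟩
  · rcases le_total w.re (ω * w).re with c | c
    · exact ⟨ω ^ 2 * w, w, by simp, by simp, n2, rfl, hre, by linarith⟩
    · exact ⟨ω ^ 2 * w, ω * w, by simp, by simp, n2, n1, hre, by linarith⟩

theorem normSq_factor (a : ℝ) (u : ℂ) :
    ‖1 + a * u‖ ^ 2 = 1 + 2 * a * u.re + a ^ 2 * ‖u‖ ^ 2 := by
  rw [Complex.sq_norm, Complex.sq_norm, Complex.normSq_apply, Complex.normSq_apply]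
  simp only [Complex.add_re, Complex.mul_re, Complex.add_im, Complex.mul_im, Complex.ofReal_re,
    Complex.ofReal_im, Complex.one_re, Complex.one_im]
  ring

/-- Comparison of the product at a near and a far point. -/
theorem prod_compare (t : ℕ → ℝ) (s : Finset ℕ) {B r : ℝ} (hB : 0 < B) (hr : 0 < r)
    (ht : ∀ j ∈ s, 0 < t j) (htB : ∀ j ∈ s, t j ≤ B) {u v : ℂ} (hu : ‖u‖ = r) (hv : ‖v‖ = r)
    (hu' : r / 2 ≤ u.re) (hv' : v.re ≤ -(r / 4)) :
    1 ≤ ‖f t s u‖ ∧
      (1 + (r / (1 + B * r) ^ 2) * ∑ j ∈ s, t j) * ‖f t s v‖ ^ 2 ≤ ‖f t s u‖ ^ 2 := by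
  induction s using Finset.induction_on with
  | empty => simp [f]
  | insert a s ha ih =>
    obtain ⟨i1, i2⟩ := ih (fun j hj => ht j (Finset.mem_insert_of_mem hj))
      (fun j hj => htB j (Finset.mem_insert_of_mem hj))
    have h0 := ht a (Finset.mem_insert_self a s)
    have h1 := htB a (Finset.mem_insert_self a s)
    have hf : ∀ x, f t (insert a s) x = (1 + t a * x) * f t s x := by
      intro x
      unfold f
      rw [Finset.prod_insert ha]
    have hS : 0 ≤ ∑ j ∈ s, t j :=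
      Finset.sum_nonneg fun j hj => (ht j (Finset.mem_insert_of_mem hj)).le
    rw [hf, hf, norm_mul, norm_mul, mul_pow, mul_pow, Finset.sum_insert ha]
    set S := ∑ j ∈ s, t j
    set c := r / (1 + B * r) ^ 2 with hc
    have hc0 : 0 ≤ c := by positivity
    have e1 := normSq_factor (t a) u
    have e2 := normSq_factor (t a) v
    rw [hu] at e1
    rw [hv] at e2
    have g1 : 1 ≤ ‖1 + (t a : ℂ) * u‖ := by
      have : 1 ≤ ‖1 + (t a : ℂ) * u‖ ^ 2 := by
        rw [e1]
        have hre : 0 ≤ u.re := by linarith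
        have : 0 ≤ 2 * t a * u.re := by positivity
        nlinarith [sq_nonneg (t a * r)]
      nlinarith [norm_nonneg (1 + (t a : ℂ) * u)]
    have g2 : ‖1 + (t a : ℂ) * v‖ ^ 2 ≤ (1 + B * r) ^ 2 := by
      have h5 : ‖1 + (t a : ℂ) * v‖ ≤ 1 + B * r := by
        refine (norm_add_le _ _).trans ?_
        rw [norm_one, norm_mul, hv, Complex.norm_real, Real.norm_of_nonneg h0.le]
        have := mul_le_mul_of_nonneg_right h1 hr.le
        linarith
      exact pow_le_pow_left₀ (norm_nonneg _) h5 2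
    have g3 : (1 + c * t a) * ‖1 + (t a : ℂ) * v‖ ^ 2 ≤ ‖1 + (t a : ℂ) * u‖ ^ 2 := by
      have h6 : c * ‖1 + (t a : ℂ) * v‖ ^ 2 ≤ r := by
        rw [hc, div_mul_eq_mul_div, div_le_iff₀ (by positivity)]
        exact mul_le_mul_of_nonneg_left g2 hr.le
      have h7 : t a * (c * ‖1 + (t a : ℂ) * v‖ ^ 2) ≤ t a * r :=
        mul_le_mul_of_nonneg_left h6 h0.le
      have h8 : 2 * t a * v.re ≤ 2 * t a * (-(r / 4)) := by
        exact mul_le_mul_of_nonneg_left hv' (by positivity)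
      have h9 : 2 * t a * (r / 2) ≤ 2 * t a * u.re :=
        mul_le_mul_of_nonneg_left hu' (by positivity)
      have h10 : 0 < t a * r := mul_pos h0 hr
      nlinarith
    refine ⟨?_, ?_⟩
    · nlinarith
    · have k1 : (1 + c * (t a + S)) ≤ (1 + c * t a) * (1 + c * S) := by
        nlinarith [mul_nonneg (mul_nonneg hc0 h0.le) (mul_nonneg hc0 hS)]
      calc (1 + c * (t a + S)) * (‖1 + (t a : ℂ) * v‖ ^ 2 * ‖f t s v‖ ^ 2)
          ≤ ((1 + c * t a) * (1 + c * S)) * (‖1 + (t a : ℂ) * v‖ ^ 2 * ‖f t s v‖ ^ 2) :=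
            mul_le_mul_of_nonneg_right k1 (by positivity)
        _ = ((1 + c * t a) * ‖1 + (t a : ℂ) * v‖ ^ 2) * ((1 + c * S) * ‖f t s v‖ ^ 2) := by ring
        _ ≤ ‖1 + (t a : ℂ) * u‖ ^ 2 * ‖f t s u‖ ^ 2 :=
            mul_le_mul g3 i2 (by positivity) (by positivity)

/-- The quantitative lower bound for the parts of the derivative of `T f` at its zeros. -/
theorem lower_bound_P (hω : ω ^ 2 + ω + 1 = 0) (t : ℕ → ℝ) {s : Finset ℕ} {B : ℝ} (hB : 0 < B)
    (hs : ∀ j ∈ s, 0 < t j) (hsB : ∀ j ∈ s, t j ≤ B) {w : ℂ} (h : P ω t s w = 0) {l : ℕ}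
    (hl : l ∈ s) :
    min (‖w‖ / (1 + B * ‖w‖) ^ 2 * (∑ j ∈ s.erase l, t j) / 8) (1 / 2) ≤
      2 * (‖P ω t (s.erase l) w‖ * (1 + 1 / (t l * ‖w‖))) := by
  have hw : w ≠ 0 := by
    rintro rfl
    rw [P_zero hω] at h
    exact one_ne_zero h
  have hr : 0 < ‖w‖ := norm_pos_iff.2 hw
  have htl := hs l hl
  have he : P ω t (s.erase l) w = -(t l * (w * P ω t (s.erase l) (ω * w))) := by
    have := P_insert hω t (Finset.notMem_erase l s) w
    rw [Finset.insert_erase hl, h] at this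
    linear_combination -this
  have hn : ‖P ω t (s.erase l) (ω * w)‖ = ‖P ω t (s.erase l) w‖ * (1 / (t l * ‖w‖)) := by
    rw [he, norm_neg, norm_mul, norm_mul, Complex.norm_real, Real.norm_of_nonneg htl.le]
    field_simp
  obtain ⟨u, v, hu, hv, hnu, hnv, hu', hv'⟩ := near_far hω hw
  obtain ⟨c1, c2⟩ := prod_compare t (s.erase l) hB hr
    (fun j hj => hs j (Finset.mem_of_mem_erase hj)) (fun j hj => hsB j (Finset.mem_of_mem_erase hj))
    hnu hnv hu' hv'
  have c3 := inverse hω (f t (s.erase l)) w u v hu hv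
  change ‖f t (s.erase l) u‖ - ‖f t (s.erase l) v‖ ≤
    2 * (‖P ω t (s.erase l) w‖ + ‖P ω t (s.erase l) (ω * w)‖) at c3
  rw [hn] at c3
  have hS : 0 ≤ ∑ j ∈ s.erase l, t j :=
    Finset.sum_nonneg fun j hj => (hs j (Finset.mem_of_mem_erase hj)).le
  set κ := ‖w‖ / (1 + B * ‖w‖) ^ 2 * ∑ j ∈ s.erase l, t j with hκ
  have hκ0 : 0 ≤ κ := by positivity
  set X := ‖f t (s.erase l) u‖
  set Y := ‖f t (s.erase l) v‖
  have hY : 0 ≤ Y := norm_nonneg _
  set ε := ‖P ω t (s.erase l) w‖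
  set η := 2 * (ε * (1 + 1 / (t l * ‖w‖))) with hη
  have hle : X - Y ≤ η := by
    refine c3.trans (le_of_eq ?_)
    rw [hη]
    ring
  by_contra hcon
  push Not at hcon
  have a1 : η < κ / 8 := lt_of_lt_of_le hcon (min_le_left _ _)
  have a2 : η < 1 / 2 := lt_of_lt_of_le hcon (min_le_right _ _)
  have a3 : X / 2 ≤ Y := by linarith
  have a4 : Y ≤ X := by
    nlinarith [sq_nonneg Y, mul_nonneg hκ0 (sq_nonneg Y)]
  have a5 : κ * Y ^ 2 ≤ (X - Y) * (X + Y) := by nlinarith
  have a6 : κ * (X / 2) ^ 2 ≤ κ * Y ^ 2 := by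
    have : (X / 2) ^ 2 ≤ Y ^ 2 := pow_le_pow_left₀ (by linarith) a3 2
    exact mul_le_mul_of_nonneg_left this hκ0
  have a7 : (X - Y) * (X + Y) ≤ η * (2 * X) := by
    have : 0 ≤ X - Y := by linarith
    nlinarith
  have a8 : κ * X / 8 ≤ η := by
    have : κ * (X / 2) ^ 2 ≤ η * (2 * X) := by linarith
    have hX : 0 < X := by linarith
    nlinarith
  nlinarith

/-- The quantitative lower bound for the derivative of `T f` at its zeros. -/
theorem lower_bound (hω : ω ^ 2 + ω + 1 = 0) (t : ℕ → ℝ) {s : Finset ℕ} {B : ℝ} (hB : 0 < B)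
    (hs : ∀ j ∈ s, 0 < t j) (hsB : ∀ j ∈ s, t j ≤ B) {w : ℂ} (h : P ω t s w = 0) {l : ℕ}
    (hl : l ∈ s) :
    min (‖w‖ / (1 + B * ‖w‖) ^ 2 * (∑ j ∈ s.erase l, t j) / 8) (1 / 2) ≤
      2 * (‖w * deriv (P ω t s) w‖ * (1 + 1 / (t l * ‖w‖))) := by
  have htl := hs l hl
  refine (lower_bound_P hω t hB hs hsB h hl).trans ?_
  have := norm_deriv_ge hω t hs h hl
  gcongr

/-- All zeros of `T f` are simple. -/
theorem simple_finite (hω : ω ^ 2 + ω + 1 = 0) (t : ℕ → ℝ) {s : Finset ℕ}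
    (hs : ∀ j ∈ s, 0 < t j) {w : ℂ} (h : P ω t s w = 0) : deriv (P ω t s) w ≠ 0 := by
  intro hd
  have hw : w ≠ 0 := by
    rintro rfl
    rw [P_zero hω] at h
    exact one_ne_zero h
  have hr : 0 < ‖w‖ := norm_pos_iff.2 hw
  rcases Finset.eq_empty_or_nonempty s with rfl | ⟨l, hl⟩
  · rw [P_empty hω] at h
    exact one_ne_zero h
  · rcases Finset.eq_empty_or_nonempty (s.erase l) with h1 | h1
    · have h2 := norm_deriv_ge hω t hs h hl
      rw [h1, P_empty hω, hd, mul_zero, norm_zero, norm_one] at h2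
      linarith
    · obtain ⟨B, hB0, hB⟩ : ∃ B : ℝ, 0 < B ∧ ∀ j ∈ s, t j ≤ B := by
        refine ⟨∑ j ∈ s, t j, Finset.sum_pos hs ⟨l, hl⟩, fun j hj => ?_⟩
        exact Finset.single_le_sum (f := t) (fun i hi => (hs i hi).le) hj
      have h2 := lower_bound hω t hB0 hs hB h hl
      have h3 : 0 < ∑ j ∈ s.erase l, t j :=
        Finset.sum_pos (fun j hj => hs j (Finset.mem_of_mem_erase hj)) h1
      rw [hd, mul_zero, norm_zero, zero_mul, mul_zero] at h2
      have h4 : 0 < min (‖w‖ / (1 + B * ‖w‖) ^ 2 * (∑ j ∈ s.erase l, t j) / 8) (1 / 2) :=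
        lt_min (by positivity) (by norm_num)
      linarith

end SokalRay
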