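import Pool.Agent.Lib_MP_af4de1.Basic
import Pool.Agent.Lib_MP_af4de1_Ray.Simple
import Pool.Agent.Lib_MP_af4de1_Ray.Rooted

/-!
# `F(.;ρω)` as a limit, and its zeros
-/

namespace SokalRay

open InnerProductGeometry Real Filter Topology SokalF

variable {ω : ℂ}

/-- Hurwitz: near a zero of the limit there are zeros of the approximants. -/
theorem hurwitz {G : ℂ → ℂ} {H : ℕ → ℂ → ℂ} (hG : Differentiable ℂ G)
    (hH : ∀ n, Differentiable ℂ (H n)) (hlim : TendstoLocallyUniformlyOn H G atTop Set.univ)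
    (h0 : G 0 ≠ 0) {w : ℂ} (hw : G w = 0) :
    ∃ᶠ p : ℕ × ℂ in atTop ×ˢ 𝓝 w, H p.1 p.2 = 0 := by
  intro hcon
  obtain ⟨p1, hp1, p2, hp2, hp⟩ := eventually_prod_iff.1 hcon
  have h1 : ∀ᶠ u in 𝓝 w, u ∈ ({w}ᶜ : Set ℂ) → G u ≠ 0 :=
    eventually_nhdsWithin_iff.1 (eventually_ne hG h0 w)
  obtain ⟨r, hr, hball⟩ := Metric.eventually_nhds_iff_ball.1 (h1.and hp2)
  have hr2 : 0 < r / 2 := by positivity
  have hsub : ∀ u ∈ Metric.closedBall w (r / 2), u ∈ Metric.ball w r := fun u hu =>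
    Metric.mem_ball.2 (lt_of_le_of_lt (Metric.mem_closedBall.1 hu) (by linarith))
  have hsph : ∀ u ∈ Metric.sphere w (r / 2), G u ≠ 0 := by
    intro u hu
    refine (hball u (hsub u (Metric.sphere_subset_closedBall hu))).1 ?_
    intro hu'
    rw [Set.mem_singleton_iff.1 hu', Metric.mem_sphere, dist_self] at hu
    linarith
  obtain ⟨x0, hx0, hmin⟩ := (isCompact_sphere w (r / 2)).exists_isMinOn
    (NormedSpace.sphere_nonempty.2 hr2.le) hG.continuous.norm.continuousOn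
  set m := ‖G x0‖ with hm
  have hm0 : 0 < m := norm_pos_iff.2 (hsph x0 hx0)
  have hunif : TendstoUniformlyOn H G atTop (Metric.closedBall w (r / 2)) :=
    (tendstoLocallyUniformlyOn_iff_tendstoUniformlyOn_of_compact
      (isCompact_closedBall w (r / 2))).1 (hlim.mono (Set.subset_univ _))
  rw [Metric.tendstoUniformlyOn_iff] at hunif
  obtain ⟨n, hn1, hn2⟩ := ((hunif (m / 4) (by positivity)).and hp1).exists
  have hne : ∀ u ∈ Metric.closedBall w (r / 2), H n u ≠ 0 := fun u hu =>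
    hp hn2 (hball u (hsub u hu)).2
  have hd : DiffContOnCl ℂ (fun u => (H n u)⁻¹) (Metric.ball w (r / 2)) := by
    refine DifferentiableOn.diffContOnCl ?_
    rw [closure_ball w hr2.ne']
    exact (hH n).differentiableOn.inv hne
  have hb : ∀ u ∈ frontier (Metric.ball w (r / 2)), ‖(H n u)⁻¹‖ ≤ (3 * m / 4)⁻¹ := by
    intro u hu
    rw [frontier_ball w hr2.ne'] at hu
    have k1 : m ≤ ‖G u‖ := hmin hu
    have k2 := hn1 u (Metric.sphere_subset_closedBall hu)
    rw [dist_eq_norm] at k2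
    have k3 := norm_sub_norm_le (G u) (H n u)
    rw [norm_inv]
    exact inv_anti₀ (by positivity) (by linarith)
  have hc := Complex.norm_le_of_forall_mem_frontier_norm_le Metric.isBounded_ball hd hb
    (z := w) (subset_closure (Metric.mem_ball_self hr2))
  have k2 := hn1 w (Metric.mem_closedBall_self hr2.le)
  rw [hw, dist_zero_left] at k2
  rw [norm_inv, inv_le_inv₀ (norm_pos_iff.2 (hne w (Metric.mem_closedBall_self hr2.le)))
    (by positivity)] at hc
  linarith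

/-- The ratio of the coefficients. -/
noncomputable def d (n k : ℕ) : ℝ := (n.choose k : ℝ) * (Nat.factorial k : ℝ) / (n : ℝ) ^ k

theorem d_nonneg (n k : ℕ) : 0 ≤ d n k := by unfold d; positivity

theorem d_le_one (n k : ℕ) : d n k ≤ 1 := by
  unfold d
  refine div_le_one_of_le₀ ?_ (by positivity)
  have h := Nat.descFactorial_le_pow n k
  rw [Nat.descFactorial_eq_factorial_mul_choose, mul_comm] at h
  exact_mod_cast h

theorem d_tendsto (k : ℕ) : Tendsto (fun n => d n k) atTop (𝓝 1) := by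
  induction k with
  | zero => simp [d]
  | succ k ih =>
    have h1 : Tendsto (fun n : ℕ => 1 - (k : ℝ) / n) atTop (𝓝 1) := by
      have := (tendsto_const_div_atTop_nhds_zero_nat (k : ℝ)).const_sub 1
      simpa using this
    have h2 := ih.mul h1
    rw [one_mul] at h2
    refine h2.congr' ?_
    filter_upwards [eventually_gt_atTop k] with n hn
    have hn0 : (n : ℝ) ≠ 0 := by
      have : 0 < n := by omega
      exact_mod_cast this.ne'
    have h3 : (n.choose (k + 1) : ℝ) * (k + 1) = n.choose k * (n - k) := by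
      have := Nat.choose_succ_right_eq n k
      have h4 : ((n - k : ℕ) : ℝ) = (n : ℝ) - k := by
        rw [Nat.cast_sub hn.le]
      rw [← h4]
      exact_mod_cast this
    unfold d
    rw [Nat.factorial_succ, pow_succ]
    push_cast
    field_simp
    linear_combination (-1 : ℝ) * h3

theorem E_div_eq (q : ℂ) (n : ℕ) (hn : 0 < n) (z : ℂ) :
    E q n (z / n) =
      ∑' k : ℕ, (d n k : ℂ) * (q ^ (k * (k - 1) / 2) * z ^ k / (Nat.factorial k : ℂ)) := by
  have hn0 : (n : ℂ) ≠ 0 := by exact_mod_cast hn.ne'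
  rw [tsum_eq_sum (s := Finset.range (n + 1))]
  · unfold E
    refine Finset.sum_congr rfl fun k _ => ?_
    have : (Nat.factorial k : ℂ) ≠ 0 := by exact_mod_cast Nat.factorial_ne_zero k
    unfold d
    push_cast
    rw [div_pow]
    field_simp
  · intro k hk
    have h1 : n < k := by
      rw [Finset.mem_range] at hk
      omega
    unfold d
    rw [Nat.choose_eq_zero_of_lt h1]
    simp

theorem tendsto_E {q : ℂ} (hq : ‖q‖ ≤ 1) :
    TendstoLocallyUniformlyOn (fun (n : ℕ) z => E q n (z / n)) (F q) atTop Set.univ := by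
  rw [Metric.tendstoLocallyUniformlyOn_iff]
  intro ε hε x _
  set R := ‖x‖ + 1 with hR
  have hR0 : 0 ≤ R := by positivity
  refine ⟨Metric.ball 0 R, mem_nhdsWithin_of_mem_nhds
    (Metric.isOpen_ball.mem_nhds (by rw [mem_ball_zero_iff, hR]; linarith)), ?_⟩
  have hsR := Real.summable_pow_div_factorial R
  have h1 : Tendsto (fun n : ℕ => ∑' k : ℕ, (1 - d n k) * (R ^ k / (Nat.factorial k : ℝ))) atTop
      (𝓝 (∑' _k : ℕ, (0 : ℝ))) := by
    refine tendsto_tsum_of_dominated_convergence (bound := fun k => R ^ k / (Nat.factorial k : ℝ))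
      hsR ?_ ?_
    · intro k
      have := ((d_tendsto k).const_sub 1).mul_const (R ^ k / (Nat.factorial k : ℝ))
      simpa using this
    · refine .of_forall fun n k => ?_
      have hd0 := d_nonneg n k
      have hd1 := d_le_one n k
      have hp : 0 ≤ R ^ k / (Nat.factorial k : ℝ) := by positivity
      rw [Real.norm_of_nonneg (mul_nonneg (by linarith) hp)]
      exact mul_le_of_le_one_left hp (by linarith)
  rw [tsum_zero] at h1
  filter_upwards [h1.eventually_lt_const hε, eventually_gt_atTop 0] with n hn hn0 y hy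
  rw [mem_ball_zero_iff] at hy
  refine lt_of_le_of_lt ?_ hn
  rw [E_div_eq q n hn0, dist_eq_norm]
  unfold F
  have hs1 := summable_term hq y
  have hs2 : Summable fun k : ℕ =>
      (d n k : ℂ) * (q ^ (k * (k - 1) / 2) * y ^ k / (Nat.factorial k : ℂ)) := by
    refine Summable.of_norm_bounded (Real.summable_pow_div_factorial ‖y‖) fun k => ?_
    rw [norm_mul, Complex.norm_real, Real.norm_of_nonneg (d_nonneg n k)]
    refine (mul_le_of_le_one_left (norm_nonneg _) (d_le_one n k)).trans (norm_term_le hq y k)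
  rw [← hs1.tsum_sub hs2]
  have hb : ∀ k : ℕ, ‖q ^ (k * (k - 1) / 2) * y ^ k / (Nat.factorial k : ℂ) -
      (d n k : ℂ) * (q ^ (k * (k - 1) / 2) * y ^ k / (Nat.factorial k : ℂ))‖ ≤
      (1 - d n k) * (R ^ k / (Nat.factorial k : ℝ)) := by
    intro k
    have hd1 := d_le_one n k
    rw [← one_sub_mul, norm_mul, show (1 : ℂ) - (d n k : ℂ) = ((1 - d n k : ℝ) : ℂ) by push_cast; ring,
      Complex.norm_real, Real.norm_of_nonneg (by linarith)]
    refine mul_le_mul_of_nonneg_left ((norm_term_le hq y k).trans ?_) (by linarith)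
    gcongr
  refine tsum_of_norm_bounded (Summable.hasSum ?_) hb
  refine Summable.of_nonneg_of_le (fun k => ?_) (fun k => ?_) hsR
  · exact mul_nonneg (by linarith [d_le_one n k]) (by positivity)
  · exact mul_le_of_le_one_left (by positivity) (by linarith [d_nonneg n k])

theorem T_E (hω : ω ^ 2 + ω + 1 = 0) (ρ : ℂ) (n : ℕ) (x : ℂ) :
    T ω (E ρ n) x = E (ρ * ω) n x := by
  have h3 := omega_cube hω
  have key : ∀ k : ℕ, ω ^ (k * (k - 1) / 2) =
      (2 + ω) / 3 + (1 + 2 * ω ^ 2) / 3 * ω ^ k + (2 + ω) / 3 * (ω ^ 2) ^ k := by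
    intro k
    induction k with
    | zero => simp; linear_combination (-2 / 3) * hω
    | succ k ih =>
      rw [Nat.triangle_succ, pow_add, ih]
      have h4 : (ω ^ 2) ^ k * ω ^ k = 1 := by
        rw [← mul_pow, ← pow_succ, h3, one_pow]
      have h5 : ω ^ k * ω ^ k = (ω ^ 2) ^ k := by rw [← mul_pow, ← pow_two]
      rw [pow_succ ω k, pow_succ (ω ^ 2) k]
      linear_combination ((2 + ω) / 3) * h4 + ((1 + 2 * ω ^ 2) / 3) * h5 -
        (2 / 3 * ω ^ k) * h3 - (1 / 3 * (ω ^ 2) ^ k) * h3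
  unfold T E
  rw [Finset.mul_sum, Finset.mul_sum, Finset.mul_sum, ← Finset.sum_add_distrib,
    ← Finset.sum_add_distrib]
  refine Finset.sum_congr rfl fun k _ => ?_
  rw [mul_pow ρ ω, key k, mul_pow, mul_pow]
  ring

theorem E_one (n : ℕ) (x : ℂ) : E 1 n x = ∏ _j ∈ Finset.range n, (1 + (1 : ℂ) * x) := by
  induction n with
  | zero => simp [E]
  | succ n ih =>
    rw [E_succ, one_mul, ih, Finset.prod_range_succ]
    ring_nf

/-- Real rootedness of the approximants, `0 < ρ ≤ 1`. -/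
theorem approx (hω : ω ^ 2 + ω + 1 = 0) {ρ : ℝ} (hρ0 : 0 < ρ) (hρ1 : ρ ≤ 1) {n : ℕ}
    (hn : 0 < n) : ∃ t : ℕ → ℝ, (∀ j < n, 0 < t j) ∧
      (∀ z : ℂ, P ω t (Finset.range n) z = E (ρ * ω) n (z / n)) ∧
      (∑ j ∈ Finset.range n, t j = 1) ∧
      (∑ j ∈ Finset.range n, t j ^ 2 = 1 - (1 - 1 / n) * ρ) := by
  have hn0 : (0 : ℝ) < n := by exact_mod_cast hn
  obtain ⟨t, ht, he⟩ : ∃ t : ℕ → ℝ, (∀ j < n, 0 < t j) ∧
      ∀ x : ℂ, E ρ n x = ∏ j ∈ Finset.range n, (1 + t j * x) := by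
    rcases hρ1.lt_or_eq with h | rfl
    · obtain ⟨t, ht, -, he⟩ := rooted hρ0 h n
      exact ⟨t, ht, he⟩
    · refine ⟨fun _ => 1, fun _ _ => one_pos, fun x => ?_⟩
      have := E_one n x
      simpa using this
  obtain ⟨p1, p2⟩ := power_sums he
  refine ⟨fun j => t j / n, fun j hj => div_pos (ht j hj) hn0, fun z => ?_, ?_, ?_⟩
  · rw [← T_E hω]
    have h1 : ∀ x : ℂ, f (fun j => t j / n) (Finset.range n) x = E ρ n (x / n) := by
      intro x
      rw [he]
      unfold f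
      refine Finset.prod_congr rfl fun j _ => ?_
      push_cast
      ring
    unfold P T
    rw [h1, h1, h1, mul_div_assoc, mul_div_assoc]
  · rw [← Finset.sum_div, p1]
    exact div_self hn0.ne'
  · simp only [div_pow]
    rw [← Finset.sum_div, p2]
    field_simp

/-- The quantitative lower bound for the approximants. -/
theorem bound_n (hω : ω ^ 2 + ω + 1 = 0) {ρ : ℝ} (hρ0 : 0 < ρ) (hρ1 : ρ < 1) {n : ℕ}
    (hn : 2 ≤ n) {w : ℂ} (h : E (ρ * ω) n (w / n) = 0) :
    min (‖w‖ / (1 + ‖w‖) ^ 2 * (ρ / 4) / 8) (1 / 2) ^ 2 ≤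
      (2 * (1 + 1 / ((1 - ρ) * ‖w‖))) ^ 2 *
        inner ℝ (w * deriv (fun z => E (ρ * ω) n (z / n)) w) (w * E (ρ * ω) n (ω * w / n)) := by
  obtain ⟨t, ht, hPE, hsum, hsum2⟩ := approx hω hρ0 hρ1.le (n := n) (by omega)
  have hn2 : (2 : ℝ) ≤ n := by exact_mod_cast hn
  set s := Finset.range n with hs
  have hpos : ∀ j ∈ s, 0 < t j := fun j hj => ht j (Finset.mem_range.1 hj)
  have hn3 : 1 / (n : ℝ) ≤ 1 / 2 := one_div_le_one_div_of_le (by norm_num) hn2
  have hn4 : 0 < 1 / (n : ℝ) := by positivity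
  have hle1 : ∀ j ∈ s, t j ≤ 1 := fun j hj => by
    rw [← hsum]
    exact Finset.single_le_sum (f := t) (fun i hi => (hpos i hi).le) hj
  obtain ⟨l, hl, hl1⟩ : ∃ l ∈ s, 1 - ρ ≤ t l := by
    by_contra hcon
    push Not at hcon
    have h1 : ∑ j ∈ s, t j ^ 2 ≤ ∑ j ∈ s, (1 - ρ) * t j := by
      refine Finset.sum_le_sum fun j hj => ?_
      have := hcon j hj
      have := hpos j hj
      nlinarith
    rw [← Finset.mul_sum, hsum, hsum2] at h1
    have := mul_pos hn4 hρ0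
    nlinarith
  have hl2 : t l ≤ 1 - ρ / 4 := by
    have h1 : t l ^ 2 ≤ ∑ j ∈ s, t j ^ 2 :=
      Finset.single_le_sum (f := fun j => t j ^ 2) (fun i _ => sq_nonneg _) hl
    rw [hsum2] at h1
    have h2 : t l ^ 2 ≤ 1 - ρ / 2 := by nlinarith
    by_contra h3
    push Not at h3
    nlinarith [sq_nonneg (ρ / 4)]
  have herase : ρ / 4 ≤ ∑ j ∈ s.erase l, t j := by
    have := Finset.add_sum_erase s t hl
    rw [hsum] at this
    linarith
  have hw : P ω t s w = 0 := by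
    rw [hPE]
    exact h
  have hmain := lower_bound_P hω t one_pos hpos hle1 hw hl
  have hnext := inner_next_ge hω t hpos hw hl
  rw [funext hPE] at hnext
  beta_reduce at hnext
  rw [one_mul] at hmain
  have hw0 : w ≠ 0 := by
    rintro rfl
    rw [P_zero hω] at hw
    exact one_ne_zero hw
  have hr : 0 < ‖w‖ := norm_pos_iff.2 hw0
  have hρ2 : 0 < 1 - ρ := by linarith
  have htl := hpos l hl
  set ε := ‖P ω t (s.erase l) w‖ with hε
  have hε0 : 0 ≤ ε := norm_nonneg _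
  have k1 : min (‖w‖ / (1 + ‖w‖) ^ 2 * (ρ / 4) / 8) (1 / 2) ≤
      2 * (ε * (1 + 1 / ((1 - ρ) * ‖w‖))) := by
    refine (min_le_min_right _ ?_).trans (hmain.trans ?_)
    · gcongr
    · gcongr
  have k2 : ε ^ 2 ≤ ε ^ 2 / t l := by
    rw [le_div_iff₀ htl]
    have := hle1 l hl
    nlinarith [sq_nonneg ε]
  have k0 : 0 ≤ min (‖w‖ / (1 + ‖w‖) ^ 2 * (ρ / 4) / 8) (1 / 2 : ℝ) :=
    le_min (by positivity) (by norm_num)
  calc min (‖w‖ / (1 + ‖w‖) ^ 2 * (ρ / 4) / 8) (1 / 2) ^ 2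
      ≤ (2 * (ε * (1 + 1 / ((1 - ρ) * ‖w‖)))) ^ 2 := pow_le_pow_left₀ k0 k1 2
    _ = (2 * (1 + 1 / ((1 - ρ) * ‖w‖))) ^ 2 * ε ^ 2 := by ring
    _ ≤ _ := mul_le_mul_of_nonneg_left (k2.trans hnext) (by positivity)

theorem tendsto_prod {G : ℂ → ℂ} {H : ℕ → ℂ → ℂ}
    (hlim : TendstoLocallyUniformlyOn H G atTop Set.univ) (hc : Continuous G) (w : ℂ) :
    Tendsto (fun p : ℕ × ℂ => H p.1 p.2) (atTop ×ˢ 𝓝 w) (𝓝 (G w)) := by
  rw [Metric.tendsto_nhds]
  intro ε hε
  rw [Metric.tendstoLocallyUniformlyOn_iff] at hlim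
  obtain ⟨t, ht, hn⟩ := hlim (ε / 2) (by positivity) w (Set.mem_univ w)
  rw [nhdsWithin_univ] at ht
  have hc2 := (Metric.continuousAt_iff'.1 (hc.continuousAt (x := w))) (ε / 2) (by positivity)
  have h2 : ∀ᶠ x in 𝓝 w, x ∈ t ∧ dist (G x) (G w) < ε / 2 :=
    (Filter.eventually_mem_set.2 ht).and hc2
  filter_upwards [hn.prod_mk h2] with p hp
  have h3 := hp.1 p.2 hp.2.1
  have h4 := dist_triangle (H p.1 p.2) (G p.2) (G w)
  have h5 : dist (H p.1 p.2) (G p.2) < ε / 2 := by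
    rw [dist_comm]
    exact h3
  linarith [hp.2.2]

theorem tendsto_prod_deriv {G : ℂ → ℂ} {H : ℕ → ℂ → ℂ} (hG : Differentiable ℂ G)
    (hH : ∀ n, Differentiable ℂ (H n))
    (hlim : TendstoLocallyUniformlyOn H G atTop Set.univ) (w : ℂ) :
    Tendsto (fun p : ℕ × ℂ => deriv (H p.1) p.2) (atTop ×ˢ 𝓝 w) (𝓝 (deriv G w)) := by
  have hlim' := hlim.deriv (.of_forall fun n => (hH n).differentiableOn) isOpen_univ
  exact tendsto_prod hlim' (hG.contDiff (n := 1) |>.continuous_deriv le_rfl) w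

theorem tendsto_prod_mul {G : ℂ → ℂ} {H : ℕ → ℂ → ℂ}
    (hlim : TendstoLocallyUniformlyOn H G atTop Set.univ) (hc : Continuous G) (a w : ℂ) :
    Tendsto (fun p : ℕ × ℂ => H p.1 (a * p.2)) (atTop ×ˢ 𝓝 w) (𝓝 (G (a * w))) := by
  have h1 := tendsto_prod hlim hc (a * w)
  have h2 : Tendsto (fun p : ℕ × ℂ => (p.1, a * p.2)) (atTop ×ˢ 𝓝 w) (atTop ×ˢ 𝓝 (a * w)) := by
    refine tendsto_fst.prodMk ?_
    exact (tendsto_snd.const_mul a)
  exact h1.comp h2

/-- Inequalities at the zeros pass to the limit. -/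
theorem transfer {G : ℂ → ℂ} {H : ℕ → ℂ → ℂ} (hG : Differentiable ℂ G)
    (hH : ∀ n, Differentiable ℂ (H n)) (hlim : TendstoLocallyUniformlyOn H G atTop Set.univ)
    (h0 : G 0 ≠ 0) {w : ℂ} (hw : G w = 0) {A B : ℕ × ℂ → ℝ} {a b : ℝ}
    (hA : Tendsto A (atTop ×ˢ 𝓝 w) (𝓝 a)) (hB : Tendsto B (atTop ×ˢ 𝓝 w) (𝓝 b))
    (hAB : ∀ᶠ n in atTop, ∀ u, H n u = 0 → A (n, u) ≤ B (n, u)) : a ≤ b := by
  by_contra hcon
  push Not at hcon
  have hz := hurwitz hG hH hlim h0 hw
  have hev := hB.eventually_lt hA hcon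
  have hn2 : ∀ᶠ p : ℕ × ℂ in atTop ×ˢ 𝓝 w, ∀ u, H p.1 u = 0 → A (p.1, u) ≤ B (p.1, u) :=
    hAB.prod_inl _
  obtain ⟨p, hp0, hp1, hp2⟩ := (hz.and_eventually (hev.and hn2)).exists
  exact absurd hp1 (not_lt.2 (hp2 p.2 hp0))

theorem differentiable_F {q : ℂ} (hq : ‖q‖ ≤ 1) : Differentiable ℂ (F q) := fun z =>
  (hasDerivAt_F hq z).differentiableAt

theorem norm_q (hω : ω ^ 2 + ω + 1 = 0) {ρ : ℝ} (hρ0 : 0 < ρ) (hρ1 : ρ ≤ 1) :
    ‖(ρ : ℂ) * ω‖ ≤ 1 := by
  rw [norm_mul, omega_norm hω, mul_one, Complex.norm_real, Real.norm_of_nonneg hρ0.le]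
  exact hρ1

theorem differentiable_H (q : ℂ) (n : ℕ) : Differentiable ℂ (fun z => E q n (z / n)) := by
  unfold E
  fun_prop

/-- The lower bound for `F(.;ρω)`. -/
theorem bound (hω : ω ^ 2 + ω + 1 = 0) {ρ : ℝ} (hρ0 : 0 < ρ) (hρ1 : ρ < 1) {w : ℂ}
    (h : F (ρ * ω) w = 0) :
    min (‖w‖ / (1 + ‖w‖) ^ 2 * (ρ / 4) / 8) (1 / 2) ^ 2 ≤
      (2 * (1 + 1 / ((1 - ρ) * ‖w‖))) ^ 2 *
        inner ℝ (w * deriv (F (ρ * ω)) w) (w * F (ρ * ω) (ω * w)) := by
  have hq := norm_q hω hρ0 hρ1.le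
  set q : ℂ := ρ * ω with hqdef
  have hG := differentiable_F hq
  have hw0 : w ≠ 0 := by
    rintro rfl
    rw [F_zero] at h
    exact one_ne_zero h
  have hr : 0 < ‖w‖ := norm_pos_iff.2 hw0
  have hρ2 : 0 < 1 - ρ := by linarith
  have hlim := tendsto_E hq
  have ht2 : Tendsto (fun p : ℕ × ℂ => p.2) (atTop ×ˢ 𝓝 w) (𝓝 w) := tendsto_snd
  have ht1 := tendsto_prod_deriv hG (differentiable_H q) hlim w
  have ht3 := tendsto_prod_mul hlim hG.continuous ω w
  refine transfer (A := fun p => min (‖p.2‖ / (1 + ‖p.2‖) ^ 2 * (ρ / 4) / 8) (1 / 2 : ℝ) ^ 2)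
    (B := fun p => (2 * (1 + 1 / ((1 - ρ) * ‖p.2‖))) ^ 2 *
      inner ℝ (p.2 * deriv (fun z => E q p.1 (z / p.1)) p.2) (p.2 * E q p.1 (ω * p.2 / p.1)))
    hG (differentiable_H q) hlim (by rw [F_zero]; exact one_ne_zero) h ?_ ?_ ?_
  · have hc : ContinuousAt
        (fun u : ℂ => min (‖u‖ / (1 + ‖u‖) ^ 2 * (ρ / 4) / 8) (1 / 2 : ℝ) ^ 2) w := by
      have h1 : (1 + ‖w‖) ^ 2 ≠ 0 := by positivity
      fun_prop (disch := exact h1)
    exact hc.tendsto.comp ht2
  · have hc : ContinuousAt (fun u : ℂ => (2 * (1 + 1 / ((1 - ρ) * ‖u‖))) ^ 2) w := by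
      have h1 : (1 - ρ) * ‖w‖ ≠ 0 := by positivity
      fun_prop (disch := exact h1)
    exact (hc.tendsto.comp ht2).mul ((ht2.mul ht1).inner (ht2.mul ht3))
  · filter_upwards [eventually_ge_atTop 2] with n hn u hu
    exact bound_n hω hρ0 hρ1 hn hu

/-- At the zeros of `G = F(.;ρω)`, `ρ < 1`, the number `w G(ω w)` has positive inner product with
`w G'(w)`. -/
theorem inner_pos_lt (hω : ω ^ 2 + ω + 1 = 0) {ρ : ℝ} (hρ0 : 0 < ρ) (hρ1 : ρ < 1) {w : ℂ}
    (h : F (ρ * ω) w = 0) :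
    0 < inner ℝ (w * deriv (F (ρ * ω)) w) (w * F (ρ * ω) (ω * w)) := by
  have hw0 : w ≠ 0 := by
    rintro rfl
    rw [F_zero] at h
    exact one_ne_zero h
  have hr : 0 < ‖w‖ := norm_pos_iff.2 hw0
  have hρ2 : 0 < 1 - ρ := by linarith
  have hb := bound hω hρ0 hρ1 h
  have h1 : 0 < min (‖w‖ / (1 + ‖w‖) ^ 2 * (ρ / 4) / 8) (1 / 2 : ℝ) :=
    lt_min (by positivity) (by norm_num)
  have h2 := pow_pos h1 2
  have h3 : 0 < (2 * (1 + 1 / ((1 - ρ) * ‖w‖))) ^ 2 := by positivity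
  by_contra h4
  push Not at h4
  have := mul_nonpos_of_nonneg_of_nonpos h3.le h4
  linarith

/-- `q = ω`. -/
theorem F_omega (hω : ω ^ 2 + ω + 1 = 0) (z : ℂ) : F ω z = T ω Complex.exp z := by
  have hn := omega_norm hω
  have h1 := (tendsto_E (q := ω) hn.le).tendsto_at (Set.mem_univ z)
  have h2 : ∀ x : ℂ, Tendsto (fun n : ℕ => E 1 n (x / n)) atTop (𝓝 (Complex.exp x)) := by
    intro x
    have h3 := (tendsto_E (q := 1) (by simp)).tendsto_at (Set.mem_univ x)
    have h4 : F 1 x = Complex.exp x := by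
      unfold F
      rw [Complex.exp_eq_exp_ℂ, NormedSpace.exp_eq_tsum_div]
      simp
    rw [h4] at h3
    exact h3
  have h3 : Tendsto (fun n : ℕ => E ω n (z / n)) atTop (𝓝 (T ω Complex.exp z)) := by
    have h4 : (fun n : ℕ => E ω n (z / n)) = fun n : ℕ => (2 + ω) / 3 * E 1 n (z / n) +
        (1 + 2 * ω ^ 2) / 3 * E 1 n (ω * z / n) + (2 + ω) / 3 * E 1 n (ω ^ 2 * z / n) := by
      funext n
      have := T_E hω 1 n (z / n)
      rw [one_mul] at this
      rw [← this]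
      unfold T
      rw [mul_div_assoc, mul_div_assoc]
    rw [h4]
    unfold T
    exact (((h2 z).const_mul _).add ((h2 (ω * z)).const_mul _)).add
      ((h2 (ω ^ 2 * z)).const_mul _)
  exact tendsto_nhds_unique h1 h3

/-- At the zeros of `G = F(.;ρω)`, `ρ ≤ 1`, the number `w G(ω w)` has positive inner product with
`w G'(w)`. -/
theorem inner_pos (hω : ω ^ 2 + ω + 1 = 0) {ρ : ℝ} (hρ0 : 0 < ρ) (hρ1 : ρ ≤ 1) {w : ℂ}
    (h : F (ρ * ω) w = 0) :
    0 < inner ℝ (w * deriv (F (ρ * ω)) w) (w * F (ρ * ω) (ω * w)) := by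
  have hw0 : w ≠ 0 := by
    rintro rfl
    rw [F_zero] at h
    exact one_ne_zero h
  have hr : 0 < ‖w‖ := norm_pos_iff.2 hw0
  rcases hρ1.lt_or_eq with hρ | rfl
  · exact inner_pos_lt hω hρ0 hρ h
  · rw [Complex.ofReal_one, one_mul] at h ⊢
    rw [deriv_F (omega_norm hω).le, real_inner_self_eq_norm_sq]
    have h1 : F ω (ω * w) ≠ 0 := by
      intro hd
      rw [F_omega hω] at h hd
      obtain ⟨u, v, hu, hv, -, -, hu', hv'⟩ := near_far hω hw0
      have h1 := inverse hω Complex.exp w u v hu hv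
      rw [h, hd, norm_zero, add_zero, mul_zero, Complex.norm_exp, Complex.norm_exp, sub_nonpos,
        Real.exp_le_exp] at h1
      linarith
    exact pow_pos (norm_pos_iff.2 (mul_ne_zero hw0 h1)) 2

/-- All zeros of `F(.;ρω)` are simple, `0 < ρ ≤ 1`. -/
theorem simple_ray (hω : ω ^ 2 + ω + 1 = 0) {ρ : ℝ} (hρ0 : 0 < ρ) (hρ1 : ρ ≤ 1) {w : ℂ}
    (h : F (ρ * ω) w = 0) : deriv (F (ρ * ω)) w ≠ 0 := by
  intro hd
  have := inner_pos hω hρ0 hρ1 h
  rw [hd, mul_zero, inner_zero_left] at this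
  exact lt_irrefl _ this

/-- If `K = G + s u G(ω u)` vanishes at `w` then `|G|^2 ≤ - ⟨G, w K'⟩` there. -/
theorem gamma_ineq (hω : ω ^ 2 + ω + 1 = 0) {ρ : ℝ} (hρ0 : 0 < ρ) (hρ1 : ρ ≤ 1) {s : ℝ}
    (hs : 0 < s) {w : ℂ} (h : F (ρ * ω) w + s * (w * F (ρ * ω) (ω * w)) = 0) :
    ‖F (ρ * ω) w‖ ^ 2 ≤ inner ℝ (F (ρ * ω) w)
      (-(w * deriv (fun u => F (ρ * ω) u + s * (u * F (ρ * ω) (ω * u))) w)) := by
  have hq := norm_q hω hρ0 hρ1
  set q : ℂ := ρ * ω with hqdef
  have hG := differentiable_F hq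
  have hn1 := omega_norm hω
  have hlim := tendsto_E hq
  set K : ℂ → ℂ := fun u => F q u + s * (u * F q (ω * u)) with hK
  set Kn : ℕ → ℂ → ℂ := fun n u => E q n (u / n) + s * (u * E q n (ω * u / n)) with hKn
  have hKd : Differentiable ℂ K := by
    simp only [hK]
    fun_prop
  have hKnd : ∀ n, Differentiable ℂ (Kn n) := by
    intro n
    simp only [hKn, E]
    fun_prop
  have hKlim : TendstoLocallyUniformlyOn Kn K atTop Set.univ := by
    rw [tendstoLocallyUniformlyOn_iff_forall_isCompact isOpen_univ]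
    intro C _ hC
    obtain ⟨R, hR⟩ := hC.isBounded.subset_closedBall (0 : ℂ)
    set R' := max R 0 with hR'
    have hR0 : 0 ≤ R' := le_max_right _ _
    have hC' : ∀ u ∈ C, ‖u‖ ≤ R' := fun u hu =>
      (mem_closedBall_zero_iff.1 (hR hu)).trans (le_max_left _ _)
    have hunif : TendstoUniformlyOn (fun (n : ℕ) z => E q n (z / n)) (F q) atTop
        (Metric.closedBall 0 R') :=
      (tendstoLocallyUniformlyOn_iff_tendstoUniformlyOn_of_compact
        (isCompact_closedBall 0 R')).1 (hlim.mono (Set.subset_univ _))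
    rw [Metric.tendstoUniformlyOn_iff] at hunif ⊢
    intro ε hε
    have hden : 0 < 1 + s * R' := by positivity
    filter_upwards [hunif (ε / (1 + s * R')) (by positivity)] with n hn u hu
    have h1 := hn u (mem_closedBall_zero_iff.2 (hC' u hu))
    have h2 := hn (ω * u) (mem_closedBall_zero_iff.2 (by
      rw [norm_mul, hn1, one_mul]; exact hC' u hu))
    rw [dist_eq_norm] at h1 h2 ⊢
    have e : K u - Kn n u = (F q u - E q n (u / n)) +
        s * (u * (F q (ω * u) - E q n (ω * u / n))) := by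
      simp only [hK, hKn]
      ring
    rw [e]
    calc ‖(F q u - E q n (u / n)) + s * (u * (F q (ω * u) - E q n (ω * u / n)))‖
        ≤ ‖F q u - E q n (u / n)‖ + s * (‖u‖ * ‖F q (ω * u) - E q n (ω * u / n)‖) := by
          refine (norm_add_le _ _).trans ?_
          rw [norm_mul, norm_mul, Complex.norm_real, Real.norm_of_nonneg hs.le]
      _ ≤ ‖F q u - E q n (u / n)‖ + s * (R' * (ε / (1 + s * R'))) := by
          have := hC' u hu
          gcongr
      _ < ε / (1 + s * R') + s * (R' * (ε / (1 + s * R'))) := by linarith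
      _ = ε := by field_simp
  have ht2 : Tendsto (fun p : ℕ × ℂ => p.2) (atTop ×ˢ 𝓝 w) (𝓝 w) := tendsto_snd
  have ht1 := tendsto_prod_deriv hKd hKnd hKlim w
  have ht3 := tendsto_prod hlim hG.continuous w
  refine transfer (A := fun p => ‖E q p.1 (p.2 / p.1)‖ ^ 2)
    (B := fun p => inner ℝ (E q p.1 (p.2 / p.1)) (-(p.2 * deriv (Kn p.1) p.2)))
    hKd hKnd hKlim (by simp [hK, F_zero]) h (ht3.norm.pow 2)
    (ht3.inner (ht2.mul ht1).neg) ?_
  filter_upwards [eventually_gt_atTop 0] with n hn u hu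
  obtain ⟨t, ht, hPE, -, -⟩ := approx hω hρ0 hρ1 hn
  set t' : ℕ → ℝ := fun j => if j < n then t j else s with ht'
  have hnot : n ∉ Finset.range n := Finset.notMem_range_self
  have hPt : ∀ z, P ω t' (Finset.range n) z = E q n (z / n) := by
    intro z
    rw [← hPE]
    have h1 : ∀ x, f t' (Finset.range n) x = f t (Finset.range n) x := by
      intro x
      unfold f
      refine Finset.prod_congr rfl fun j hj => ?_
      simp only [ht', if_pos (Finset.mem_range.1 hj)]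
    unfold P T
    rw [h1, h1, h1]
  have ht'n : t' n = s := by simp [ht']
  have hPK : P ω t' (insert n (Finset.range n)) = Kn n := by
    funext z
    rw [P_insert hω t' hnot, hPt, hPt, ht'n]
  have hpos : ∀ j ∈ insert n (Finset.range n), 0 < t' j := by
    intro j _
    simp only [ht']
    split_ifs with h1
    · exact ht j h1
    · exact hs
  have hz : P ω t' (insert n (Finset.range n)) u = 0 := by rw [hPK]; exact hu
  have hfin := inner_deriv_ge hω t' hpos hz (Finset.mem_insert_self n _)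
  rw [Finset.erase_insert hnot, hPt, hPK] at hfin
  exact hfin

/-- The inequality on `{h < 0}` in terms of the logarithmic derivative. -/
theorem gamma_re {G : ℂ → ℂ} (hG : Differentiable ℂ G) {s : ℝ} {w : ℂ} (hw : G w ≠ 0)
    (h : G w + s * (w * G (ω * w)) = 0)
    (hg : ‖G w‖ ^ 2 ≤ inner ℝ (G w) (-(w * deriv (fun u => G u + s * (u * G (ω * u))) w))) :
    0 < (1 + ω * w * deriv G (ω * w) / G (ω * w) - w * deriv G w / G w).re := by
  have hd : deriv (fun u => G u + s * (u * G (ω * u))) w =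
      deriv G w + s * (1 * G (ω * w) + w * (deriv G (ω * w) * ω)) := by
    have h1 : HasDerivAt (fun u : ℂ => ω * u) ω w := by
      have := (hasDerivAt_id w).const_mul ω
      rwa [mul_one] at this
    have h2 : HasDerivAt (fun u => G (ω * u)) (deriv G (ω * w) * ω) w :=
      (hG (ω * w)).hasDerivAt.comp w h1
    exact ((hG w).hasDerivAt.add (((hasDerivAt_id w).mul h2).const_mul (s : ℂ))).deriv
  rw [hd] at hg
  have hGω : G (ω * w) ≠ 0 := by
    intro h1
    rw [h1, mul_zero, mul_zero, add_zero] at h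
    exact hw h
  set z : ℂ := 1 + ω * w * deriv G (ω * w) / G (ω * w) - w * deriv G w / G w with hz
  have e : -(w * (deriv G w + s * (1 * G (ω * w) + w * (deriv G (ω * w) * ω)))) =
      G w * z := by
    have h2 : (s : ℂ) * w = -G w / G (ω * w) := by
      rw [eq_div_iff hGω]
      linear_combination h
    have h3 : -(w * (deriv G w + s * (1 * G (ω * w) + w * (deriv G (ω * w) * ω)))) =
        -(w * deriv G w) - (s * w) * (G (ω * w) + ω * w * deriv G (ω * w)) := by ring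
    rw [h3, h2, hz]
    generalize G (ω * w) = a at hGω
    generalize deriv G (ω * w) = b
    field_simp
    ring
  rw [e] at hg
  have h4 : inner ℝ (G w) (G w * z) = ‖G w‖ ^ 2 * z.re := by
    rw [inner_eq, Complex.sq_norm, Complex.normSq_apply, Complex.mul_re, Complex.mul_im]
    ring
  rw [h4] at hg
  have h5 : 0 < ‖G w‖ ^ 2 := pow_pos (norm_pos_iff.2 hw) 2
  by_contra h6
  push Not at h6
  nlinarith

end SokalRay
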