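import Pool.Agent.Lib_MP_af4de1_Ray.Limit
import Pool.Agent.Lib_MP_af4de1_Ray.Lift

/-!
# The zeros of `F(.;ρω)` have pairwise distinct moduli
-/

namespace SokalRay

open Real Filter Topology SokalF

variable {ω : ℂ}

/-- Near a zero `w` of `G` with `⟨w G'(w), w G(ω w)⟩ > 0` the points with `u G(ω u) / G u < 0` meet
all circles of radius slightly less than `‖w‖`. -/
theorem curve {G : ℂ → ℂ} (hG : Differentiable ℂ G) {w : ℂ} (hw0 : w ≠ 0) (hw : G w = 0)
    (hpos : 0 < inner ℝ (w * deriv G w) (w * G (ω * w))) {ε : ℝ} (hε : 0 < ε) :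
    ∃ δ > 0, ∀ r', ‖w‖ - δ < r' → r' < ‖w‖ → ∃ u : ℂ, ‖u - w‖ < ε ∧ ‖u‖ = r' ∧
      ∃ s : ℝ, 0 < s ∧ G u + s * (u * G (ω * u)) = 0 := by
  have ha : w * deriv G w ≠ 0 := by
    intro h
    rw [h, inner_zero_left] at hpos
    exact lt_irrefl _ hpos
  have hb : w * G (ω * w) ≠ 0 := by
    intro h
    rw [h, inner_zero_right] at hpos
    exact lt_irrefl _ hpos
  have hGd : deriv G w ≠ 0 := right_ne_zero_of_mul ha
  have hGω : G (ω * w) ≠ 0 := right_ne_zero_of_mul hb
  have hda : ∀ z, AnalyticAt ℂ G z := fun z => hG.analyticAt z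
  set k : ℂ → ℂ := fun u => G u / (u * G (ω * u)) with hk
  have hGωd : Differentiable ℂ fun u => G (ω * u) := by fun_prop
  have hka : AnalyticAt ℂ k w :=
    (hda w).div (analyticAt_id.mul (hGωd.analyticAt w)) hb
  have hkw : k w = 0 := by simp [hk, hw]
  have hkd : deriv k w = deriv G w / (w * G (ω * w)) := by
    have h1 : HasDerivAt (fun u => u * G (ω * u)) (deriv (fun u => u * G (ω * u)) w) w := by
      have : Differentiable ℂ fun u => u * G (ω * u) := by fun_prop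
      exact (this w).hasDerivAt
    have h2 := ((hG w).hasDerivAt.div h1 hb).deriv
    have h3 : deriv k w = _ := h2
    rw [h3, hw, zero_mul, sub_zero]
    field_simp
  have hkd0 : deriv k w ≠ 0 := by
    rw [hkd]
    exact div_ne_zero hGd hb
  set φ : ℂ → ℂ := hka.hasStrictDerivAt.localInverse _ _ _ hkd0 with hφ
  have hφa : AnalyticAt ℂ φ (k w) := hka.analyticAt_localInverse hkd0
  have hφd : HasStrictDerivAt φ (deriv k w)⁻¹ (k w) := hka.hasStrictDerivAt.to_localInverse hkd0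
  have hφw : φ (k w) = w := HasStrictFDerivAt.localInverse_apply_image ..
  have hright : ∀ᶠ y in 𝓝 (k w), k (φ y) = y :=
    HasStrictDerivAt.eventually_right_inverse hka.hasStrictDerivAt hkd0
  rw [hkw] at hφa hφd hφw hright
  -- the curve
  set γ : ℝ → ℂ := fun s => φ (-(s : ℂ)) with hγ
  have hγ0 : γ 0 = w := by simp [hγ, hφw]
  have hneg : Tendsto (fun s : ℝ => -(s : ℂ)) (𝓝 0) (𝓝 0) := by
    have : Continuous fun s : ℝ => -(s : ℂ) := by fun_prop
    simpa using this.tendsto 0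
  have hγd : HasDerivAt γ (-(deriv k w)⁻¹) 0 := by
    have h1 : HasDerivAt (fun s : ℝ => -(s : ℂ)) (-1) 0 := by
      have h0 : HasDerivAt (fun s : ℝ => (s : ℂ)) 1 0 := by
        exact (Complex.ofRealCLM.hasDerivAt (x := (0 : ℝ))).congr_deriv (by simp)
      exact h0.neg
    have h2 : HasDerivAt φ (deriv k w)⁻¹ (-((0 : ℝ) : ℂ)) := by
      simpa using hφd.hasDerivAt
    refine (h2.comp (0 : ℝ) h1).congr_deriv ?_
    ring
  -- the squared modulus decreases
  have hNd : HasDerivAt (fun s => ‖γ s‖ ^ 2) (2 * inner ℝ (γ 0) (-(deriv k w)⁻¹)) 0 :=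
    hγd.norm_sq
  have hinner : inner ℝ (γ 0) (-(deriv k w)⁻¹) < 0 := by
    rw [hγ0, hkd, inv_div, inner_neg_right, neg_lt_zero]
    have h1 : inner ℝ w (w * G (ω * w) / deriv G w) =
        inner ℝ (w * deriv G w) (w * G (ω * w)) / ‖deriv G w‖ ^ 2 := by
      rw [inner_eq, inner_eq, Complex.sq_norm, Complex.normSq_apply, Complex.div_re,
        Complex.div_im, Complex.normSq_apply]
      have h2 : (deriv G w).re * (deriv G w).re + (deriv G w).im * (deriv G w).im ≠ 0 := by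
        rw [← Complex.normSq_apply]
        exact (Complex.normSq_pos.2 hGd).ne'
      simp only [Complex.mul_re, Complex.mul_im]
      generalize G (ω * w) = x
      generalize deriv G w = y at h2
      field_simp
      ring
    rw [h1]
    exact div_pos hpos (pow_pos (norm_pos_iff.2 hGd) 2)
  -- a neighbourhood of `0`
  have hc0 : ∀ᶠ s : ℝ in 𝓝 0, ContinuousAt φ (-(s : ℂ)) :=
    hneg.eventually (hφa.eventually_analyticAt.mono fun z hz => hz.continuousAt)
  have hr0 : ∀ᶠ s : ℝ in 𝓝 0, k (φ (-(s : ℂ))) = -(s : ℂ) := hneg.eventually hright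
  have hγc : ContinuousAt γ 0 := hγd.continuousAt
  have hball : ∀ᶠ s : ℝ in 𝓝 0, ‖γ s - w‖ < ε := by
    have := Metric.continuousAt_iff'.1 hγc ε hε
    simpa [dist_eq_norm, hγ0] using this
  have hnz : ∀ᶠ s : ℝ in 𝓝 0, γ s * G (ω * γ s) ≠ 0 := by
    have h1 : ContinuousAt (fun s => γ s * G (ω * γ s)) 0 := by
      have h2 : Continuous fun u => u * G (ω * u) :=
        continuous_id.mul (hG.continuous.comp (continuous_const.mul continuous_id))
      exact h2.continuousAt.comp (f := γ) hγc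
    refine h1.eventually_ne ?_
    rw [hγ0]
    exact hb
  obtain ⟨η, hη, hall⟩ := Metric.eventually_nhds_iff_ball.1 (hc0.and (hr0.and (hball.and hnz)))
  have hslope := hNd.tendsto_slope
  have h3 : ∀ᶠ s in 𝓝[≠] (0 : ℝ), slope (fun s => ‖γ s‖ ^ 2) 0 s < 0 :=
    hslope.eventually_lt_const (by linarith)
  have h4 : ∀ᶠ s in 𝓝[>] (0 : ℝ), slope (fun s => ‖γ s‖ ^ 2) 0 s < 0 :=
    h3.filter_mono (nhdsWithin_mono _ fun x hx => ne_of_gt hx)
  have h5 : ∀ᶠ s in 𝓝[>] (0 : ℝ), s < η := eventually_nhdsWithin_of_eventually_nhds (gt_mem_nhds hη)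
  have h6 : ∀ᶠ s in 𝓝[>] (0 : ℝ), 0 < s := eventually_mem_nhdsWithin
  obtain ⟨s₀, hs1, hs2, hs3⟩ := (h4.and (h5.and h6)).exists
  have hlt : ‖γ s₀‖ < ‖w‖ := by
    rw [slope_def_field, sub_zero, div_lt_iff₀ hs3, zero_mul, sub_neg] at hs1
    have h7 : ‖γ s₀‖ ^ 2 < ‖γ 0‖ ^ 2 := hs1
    rw [hγ0] at h7
    exact lt_of_pow_lt_pow_left₀ 2 (norm_nonneg _) h7
  refine ⟨‖w‖ - ‖γ s₀‖, by linarith, fun r' hr1 hr2 => ?_⟩
  have hmem : ∀ s ∈ Set.Icc (0 : ℝ) s₀, s ∈ Metric.ball (0 : ℝ) η := by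
    intro s hs
    rw [mem_ball_zero_iff, Real.norm_of_nonneg hs.1]
    linarith [hs.2]
  have hcont : ContinuousOn (fun s => ‖γ s‖) (Set.Icc 0 s₀) := by
    intro s hs
    have h8 := (hall s (hmem s hs)).1
    have h9 : ContinuousAt γ s := by
      refine ContinuousAt.comp (f := fun s : ℝ => -(s : ℂ)) (g := φ) h8 ?_
      fun_prop
    exact h9.norm.continuousWithinAt
  have hivt := intermediate_value_Ioo' hs3.le hcont
  have hr'mem : r' ∈ Set.Ioo (‖γ s₀‖) (‖γ 0‖) := by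
    rw [hγ0]
    exact ⟨by linarith, hr2⟩
  obtain ⟨s, hs, hsr⟩ := hivt hr'mem
  obtain ⟨-, c2, c3, c4⟩ := hall s (hmem s ⟨hs.1.le, hs.2.le⟩)
  refine ⟨γ s, c3, hsr, s, hs.1, ?_⟩
  have c5 : G (γ s) / (γ s * G (ω * γ s)) = -(s : ℂ) := c2
  rw [div_eq_iff c4] at c5
  rw [c5]
  ring

theorem finite_zeros {G : ℂ → ℂ} (hG : Differentiable ℂ G) (h0 : G 0 ≠ 0) (R : ℝ) :
    {u : ℂ | ‖u‖ ≤ R ∧ G u = 0}.Finite := by
  by_contra hinf
  have hinf' : {u : ℂ | ‖u‖ ≤ R ∧ G u = 0}.Infinite := hinf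
  obtain ⟨x, -, hacc⟩ := hinf'.exists_accPt_of_subset_isCompact (isCompact_closedBall (0 : ℂ) R)
    (fun u hu => mem_closedBall_zero_iff.2 hu.1)
  rw [accPt_iff_frequently_nhdsNE] at hacc
  refine hacc ?_
  filter_upwards [eventually_ne hG h0 x] with u hu hu'
  exact hu hu'.2

/-- The criterion for distinct moduli. -/
theorem distinct_of {G : ℂ → ℂ} (hG : Differentiable ℂ G) (hG0 : G 0 ≠ 0) (hω : ‖ω‖ = 1)
    (hp : ∀ w, G w = 0 → 0 < inner ℝ (w * deriv G w) (w * G (ω * w)))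
    (gp : ∀ w, G w ≠ 0 → ∀ s : ℝ, 0 < s → G w + s * (w * G (ω * w)) = 0 →
      ‖G w‖ ^ 2 ≤ inner ℝ (G w) (-(w * deriv (fun u => G u + s * (u * G (ω * u))) w)))
    {u v : ℂ} (hu : G u = 0) (hv : G v = 0) (huv : ‖u‖ = ‖v‖) : u = v := by
  by_contra hne
  have hu0 : u ≠ 0 := by
    rintro rfl
    exact hG0 hu
  have hv0 : v ≠ 0 := by
    rintro rfl
    exact hG0 hv
  set ε := ‖u - v‖ / 2 with hε
  have hε0 : 0 < ε := by
    have : 0 < ‖u - v‖ := norm_pos_iff.2 (sub_ne_zero.2 hne)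
    positivity
  obtain ⟨δ1, hδ1, hc1⟩ := curve hG hu0 hu (hp u hu) hε0
  obtain ⟨δ2, hδ2, hc2⟩ := curve hG hv0 hv (hp v hv) hε0
  have hr : 0 < ‖u‖ := norm_pos_iff.2 hu0
  set δ := min (min δ1 δ2) ‖u‖ with hδ
  have hδ0 : 0 < δ := lt_min (lt_min hδ1 hδ2) hr
  have hfin := (finite_zeros hG hG0 ‖u‖).image (fun z => ‖z‖)
  have hinf : (Set.Ioo (‖u‖ - δ) ‖u‖).Infinite := Set.Ioo_infinite (by linarith)
  obtain ⟨r', hr', hr''⟩ := hinf.exists_notMem_finite hfin
  have hr'0 : 0 < r' := by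
    have : δ ≤ ‖u‖ := min_le_right _ _
    linarith [hr'.1]
  have d1 : δ ≤ δ1 := (min_le_left _ _).trans (min_le_left _ _)
  have d2 : δ ≤ δ2 := (min_le_left _ _).trans (min_le_right _ _)
  obtain ⟨x, hx1, hx2, hx3⟩ := hc1 r' (by linarith [hr'.1]) hr'.2
  obtain ⟨y, hy1, hy2, hy3⟩ := hc2 r' (by rw [← huv]; linarith [hr'.1]) (by rw [← huv]; exact hr'.2)
  have hxy : x ≠ y := by
    rintro rfl
    have h1 : ‖u - v‖ ≤ ‖x - u‖ + ‖x - v‖ := by
      have := norm_sub_le (x - v) (x - u)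
      rw [show x - v - (x - u) = u - v by ring] at this
      linarith
    linarith
  have hcirc : ∀ z : ℂ, ‖z‖ = r' → G z ≠ 0 := by
    intro z hz hz0
    exact hr'' ⟨z, ⟨by rw [hz]; exact hr'.2.le, hz0⟩, hz⟩
  have hωarg : Complex.exp ((ω.arg : ℂ) * Complex.I) = ω := by
    have := Complex.norm_mul_exp_arg_mul_I ω
    rwa [hω, Complex.ofReal_one, one_mul] at this
  refine one_point hG ω.arg hr'0 hcirc ?_ hx2 hy2 hxy ?_ ?_
  · rintro z hz ⟨s, hs, hz'⟩
    rw [hωarg] at hz' ⊢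
    exact gamma_re hG (hcirc z hz) hz' (gp z (hcirc z hz) s hs hz')
  · rw [hωarg]
    exact hx3
  · rw [hωarg]
    exact hy3

/-- The zeros of `F(.;ρω)` have pairwise distinct moduli, `0 < ρ ≤ 1`. -/
theorem distinct_moduli (hω : ω ^ 2 + ω + 1 = 0) {ρ : ℝ} (hρ0 : 0 < ρ) (hρ1 : ρ ≤ 1) {u v : ℂ}
    (hu : F (ρ * ω) u = 0) (hv : F (ρ * ω) v = 0) (huv : ‖u‖ = ‖v‖) : u = v :=
  distinct_of (differentiable_F (norm_q hω hρ0 hρ1)) (by rw [F_zero]; exact one_ne_zero)
    (omega_norm hω) (fun _ hw => inner_pos hω hρ0 hρ1 hw)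
    (fun _ _ _ hs h => gamma_ineq hω hρ0 hρ1 hs h) hu hv huv

/-- The zeros of `T f` have pairwise distinct moduli. -/
theorem distinct_finite (hω : ω ^ 2 + ω + 1 = 0) (n : ℕ) (t : ℕ → ℝ) (ht : ∀ j < n, 0 < t j)
    {u v : ℂ} (hu : P ω t (Finset.range n) u = 0) (hv : P ω t (Finset.range n) v = 0)
    (huv : ‖u‖ = ‖v‖) : u = v := by
  have hnot : n ∉ Finset.range n := Finset.notMem_range_self
  have hpos : ∀ j ∈ Finset.range n, 0 < t j := fun j hj => ht j (Finset.mem_range.1 hj)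
  refine distinct_of (differentiable_P t _) (by rw [P_zero hω]; exact one_ne_zero)
    (omega_norm hω) ?_ ?_ hu hv huv
  · intro w hw
    rcases Finset.eq_empty_or_nonempty (Finset.range n) with h1 | ⟨l, hl⟩
    · rw [h1, P_empty hω] at hw
      exact absurd hw one_ne_zero
    · have h2 := inner_next_ge hω t hpos hw hl
      refine lt_of_lt_of_le (div_pos (pow_pos (norm_pos_iff.2 ?_) 2) (hpos l hl)) h2
      intro h3
      have hw0 : w ≠ 0 := by
        rintro rfl
        rw [P_zero hω] at hw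
        exact one_ne_zero hw
      have hr : 0 < ‖w‖ := norm_pos_iff.2 hw0
      rcases Finset.eq_empty_or_nonempty ((Finset.range n).erase l) with h4 | h4
      · rw [h4, P_empty hω] at h3
        exact one_ne_zero h3
      · obtain ⟨B, hB0, hB⟩ : ∃ B : ℝ, 0 < B ∧ ∀ j ∈ Finset.range n, t j ≤ B := by
          refine ⟨∑ j ∈ Finset.range n, t j, Finset.sum_pos hpos ⟨l, hl⟩, fun j hj => ?_⟩
          exact Finset.single_le_sum (f := t) (fun i hi => (hpos i hi).le) hj
        have h5 := lower_bound_P hω t hB0 hpos hB hw hl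
        have h6 : 0 < ∑ j ∈ (Finset.range n).erase l, t j :=
          Finset.sum_pos (fun j hj => hpos j (Finset.mem_of_mem_erase hj)) h4
        rw [h3, norm_zero, zero_mul, mul_zero] at h5
        have h7 : 0 < min (‖w‖ / (1 + B * ‖w‖) ^ 2 *
            (∑ j ∈ (Finset.range n).erase l, t j) / 8) (1 / 2) :=
          lt_min (by positivity) (by norm_num)
        linarith
  · intro w _ s hs hz
    set t' : ℕ → ℝ := fun j => if j < n then t j else s with ht'
    have hPt : ∀ z, P ω t' (Finset.range n) z = P ω t (Finset.range n) z := by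
      intro z
      have h1 : ∀ x, f t' (Finset.range n) x = f t (Finset.range n) x := by
        intro x
        unfold f
        refine Finset.prod_congr rfl fun j hj => ?_
        simp only [ht', if_pos (Finset.mem_range.1 hj)]
      unfold P T
      rw [h1, h1, h1]
    have ht'n : t' n = s := by simp [ht']
    have hPK : P ω t' (insert n (Finset.range n)) =
        fun u => P ω t (Finset.range n) u + s * (u * P ω t (Finset.range n) (ω * u)) := by
      funext z
      rw [P_insert hω t' hnot, hPt, hPt, ht'n]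
    have hpos' : ∀ j ∈ insert n (Finset.range n), 0 < t' j := by
      intro j _
      simp only [ht']
      split_ifs with h1
      · exact ht j h1
      · exact hs
    have hz' : P ω t' (insert n (Finset.range n)) w = 0 := by rw [hPK]; exact hz
    have hfin := inner_deriv_ge hω t' hpos' hz' (Finset.mem_insert_self n _)
    rw [Finset.erase_insert hnot, hPt, hPK] at hfin
    exact hfin

end SokalRay
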