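import Pool.Agent.Lib_MP_af4de1.Large
import Pool.Agent.Lib_MP_af4de1_Ray.Moduli

/-!
# Polynomial form, and the open neighbourhood of the ray
-/

namespace SokalRay

open Real Filter Topology SokalF Polynomial

variable {ω : ℂ}

theorem T_poly (hω : ω ^ 2 + ω + 1 = 0) (p : ℂ[X]) {n : ℕ} (hn : p.natDegree < n) (z : ℂ) :
    T ω (fun x => p.eval x) z =
      ∑ k ∈ Finset.range n, ω ^ (k * (k - 1) / 2) * p.coeff k * z ^ k := by
  have h3 := omega_cube hω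
  have key : ∀ k : ℕ, ω ^ (k * (k - 1) / 2) =
      (2 + ω) / 3 + (1 + 2 * ω ^ 2) / 3 * ω ^ k + (2 + ω) / 3 * (ω ^ 2) ^ k := by
    intro k
    induction k with
    | zero => simp; linear_combination (-2 / 3) * hω
    | succ k ih =>
      rw [Nat.triangle_succ, pow_add, ih]
      have h4 : (ω ^ 2) ^ k * ω ^ k = 1 := by
        rw [← mul_pow, ← pow_succ, h3, one_pow]
      have h5 : ω ^ k * ω ^ k = (ω ^ 2) ^ k := by rw [← mul_pow, ← pow_two]
      rw [pow_succ ω k, pow_succ (ω ^ 2) k]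
      linear_combination ((2 + ω) / 3) * h4 + ((1 + 2 * ω ^ 2) / 3) * h5 -
        (2 / 3 * ω ^ k) * h3 - (1 / 3 * (ω ^ 2) ^ k) * h3
  unfold T
  simp only [p.eval_eq_sum_range' hn]
  rw [Finset.mul_sum, Finset.mul_sum, Finset.mul_sum, ← Finset.sum_add_distrib,
    ← Finset.sum_add_distrib]
  refine Finset.sum_congr rfl fun k _ => ?_
  rw [key k, mul_pow, mul_pow]
  ring

theorem P_poly (hω : ω ^ 2 + ω + 1 = 0) (t : ℕ → ℝ) (n : ℕ) :
    P ω t (Finset.range n) = fun w : ℂ => ∑ k ∈ Finset.range (n + 1),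
      ω ^ (k * (k - 1) / 2) *
      (∏ j ∈ Finset.range n, (1 + C (t j : ℂ) * X) : ℂ[X]).coeff k * w ^ k := by
  have hdeg : (∏ j ∈ Finset.range n, (1 + C (t j : ℂ) * X) : ℂ[X]).natDegree < n + 1 := by
    refine Nat.lt_succ_of_le ((natDegree_prod_le _ _).trans ?_)
    refine (Finset.sum_le_sum (g := fun _ => 1) fun i _ => ?_).trans (by simp)
    refine (natDegree_add_le _ _).trans (max_le (by simp) ?_)
    exact (natDegree_C_mul_le _ _).trans natDegree_X_le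
  funext w
  rw [← T_poly hω _ hdeg]
  unfold P
  congr 1
  funext x
  unfold f
  rw [eval_prod]
  simp only [eval_add, eval_one, eval_mul, eval_C, eval_X]

/-- The bad parameters are locally finite in the open disc. -/
theorem isOpen_good : IsOpen {q : ℂ | ‖q‖ < 1 ∧ (0 < ‖q‖ → ∀ z, F q z = 0 → deriv (F q) z ≠ 0)} := by
  rw [isOpen_iff_mem_nhds]
  rintro q₀ ⟨h1, h2⟩
  set r := (1 + ‖q₀‖) / 2 with hr
  have hr1 : r < 1 := by rw [hr]; linarith
  obtain ⟨R, hR⟩ := large_bound hr1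
  set B : Set ℂ := Prod.fst '' {p : ℂ × ℂ | 0 < ‖p.1‖ ∧ ‖p.1‖ ≤ 1 ∧ ‖p.2‖ ≤ R ∧
    F p.1 p.2 = 0 ∧ deriv (F p.1) p.2 = 0} with hB
  have hfin : B.Finite := by
    refine Set.Finite.image _ ((multi_finite R).subset ?_)
    rintro ⟨q, z⟩ ⟨h1, h2, h3, h4, h5⟩
    exact ⟨h1, h2, h3, h4, h5⟩
  have hq₀ : q₀ ∉ B := by
    rintro ⟨⟨q, z⟩, ⟨c1, c2, c3, c4, c5⟩, rfl⟩
    exact h2 c1 z c4 c5
  have e1 : ∀ᶠ q in 𝓝 q₀, q ∉ B := hfin.isClosed.isOpen_compl.mem_nhds hq₀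
  have e2 : ∀ᶠ q in 𝓝 q₀, ‖q‖ < r :=
    continuous_norm.continuousAt.eventually_lt_const (by rw [hr]; linarith)
  filter_upwards [e1, e2] with q hq1 hq2
  refine ⟨hq2.trans hr1, fun hq0 z hz hd => hq1 ?_⟩
  refine ⟨(q, z), ⟨hq0, (hq2.trans hr1).le, ?_, hz, hd⟩, rfl⟩
  refine hR q z hq0 hq2.le hz ?_
  rw [← deriv_F (hq2.trans hr1).le]
  exact hd

end SokalRay
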