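import Pool.Agent.Lib_MP_af4de1_Ray.Transport

/-!
# The operator `T` for a primitive cube root of unity `ω`

`T` multiplies the `k`-th Taylor coefficient by `ω ^ (k (k-1) / 2)`; for `f = ∏ (1 + t j x)` with
`t j > 0` all zeros of `T f` are simple, with a quantitative lower bound for the derivative.
-/

namespace SokalRay

open InnerProductGeometry Real Filter Topology

variable {ω : ℂ}

/-- `T` multiplies the `k`-th Taylor coefficient by `ω ^ (k (k-1) / 2)`, `ω ^ 3 = 1`. -/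
noncomputable def T (ω : ℂ) (g : ℂ → ℂ) (w : ℂ) : ℂ :=
  (2 + ω) / 3 * g w + (1 + 2 * ω ^ 2) / 3 * g (ω * w) + (2 + ω) / 3 * g (ω ^ 2 * w)

/-- The product of the factors `1 + t j x`, `j ∈ s`. -/
noncomputable def f (t : ℕ → ℝ) (s : Finset ℕ) (x : ℂ) : ℂ := ∏ j ∈ s, (1 + t j * x)

/-- `T` applied to the product. -/
noncomputable def P (ω : ℂ) (t : ℕ → ℝ) (s : Finset ℕ) (w : ℂ) : ℂ := T ω (f t s) w

theorem rot1 (hω : ω ^ 2 + ω + 1 = 0) (w : ℂ) : ω ^ 2 * (ω * w) = w := by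
  linear_combination w * omega_cube hω

theorem rot2 (w : ℂ) : ω * (ω * w) = ω ^ 2 * w := by ring

theorem rot3 (hω : ω ^ 2 + ω + 1 = 0) (w : ℂ) : ω * (ω ^ 2 * w) = w := by
  linear_combination w * omega_cube hω

theorem rot4 (hω : ω ^ 2 + ω + 1 = 0) (w : ℂ) : ω ^ 2 * (ω ^ 2 * w) = ω * w := by
  linear_combination ω * w * omega_cube hω

theorem T_rot (hω : ω ^ 2 + ω + 1 = 0) (g : ℂ → ℂ) (w : ℂ) :
    T ω g (ω * w) = (2 + ω) / 3 * g (ω * w) + (1 + 2 * ω ^ 2) / 3 * g (ω ^ 2 * w) +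
      (2 + ω) / 3 * g w := by
  unfold T
  rw [rot1 hω, rot2]

theorem T_rot' (hω : ω ^ 2 + ω + 1 = 0) (g : ℂ → ℂ) (w : ℂ) :
    T ω g (ω ^ 2 * w) = (2 + ω) / 3 * g (ω ^ 2 * w) + (1 + 2 * ω ^ 2) / 3 * g w +
      (2 + ω) / 3 * g (ω * w) := by
  unfold T
  rw [rot3 hω, rot4 hω]

theorem T_factor (hω : ω ^ 2 + ω + 1 = 0) (g : ℂ → ℂ) (a w : ℂ) :
    T ω (fun x => (1 + a * x) * g x) w = T ω g w + a * (w * T ω g (ω * w)) := by
  rw [T_rot hω]
  unfold T
  have h3 := omega_cube hω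
  linear_combination (2 / 3 * a * w * g (ω * w)) * h3 +
    (1 / 3 * a * w * g (ω ^ 2 * w)) * h3

theorem P_insert (hω : ω ^ 2 + ω + 1 = 0) (t : ℕ → ℝ) {s : Finset ℕ} {a : ℕ} (ha : a ∉ s)
    (w : ℂ) : P ω t (insert a s) w = P ω t s w + t a * (w * P ω t s (ω * w)) := by
  unfold P
  rw [← T_factor hω]
  congr 1
  funext x
  unfold f
  rw [Finset.prod_insert ha]

theorem P_empty (hω : ω ^ 2 + ω + 1 = 0) (t : ℕ → ℝ) (w : ℂ) : P ω t ∅ w = 1 := by
  unfold P T f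
  simp only [Finset.prod_empty]
  linear_combination (2 / 3) * hω

theorem P_zero (hω : ω ^ 2 + ω + 1 = 0) (t : ℕ → ℝ) (s : Finset ℕ) : P ω t s 0 = 1 := by
  unfold P T f
  simp only [mul_zero, add_zero, Finset.prod_const_one]
  linear_combination (2 / 3) * hω

theorem differentiable_f (t : ℕ → ℝ) (s : Finset ℕ) : Differentiable ℂ (f t s) := by
  unfold f
  fun_prop

theorem differentiable_T {g : ℂ → ℂ} (hg : Differentiable ℂ g) : Differentiable ℂ (T ω g) := by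
  unfold T
  fun_prop

theorem differentiable_P (t : ℕ → ℝ) (s : Finset ℕ) : Differentiable ℂ (P ω t s) :=
  differentiable_T (differentiable_f t s)

/-- The sum of the three angles. -/
noncomputable def S (ω : ℂ) (Q : ℂ → ℂ) (w : ℂ) : ℝ :=
  angle (Q w) (w * Q (ω * w)) + angle (w * Q (ω * w)) (ω * w ^ 2 * Q (ω ^ 2 * w)) +
    angle (ω * w ^ 2 * Q (ω ^ 2 * w)) (w ^ 3 * Q w)

theorem S_insert (hω : ω ^ 2 + ω + 1 = 0) (t : ℕ → ℝ) {s : Finset ℕ} {a : ℕ} (ha : a ∉ s)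
    (hta : 0 < t a) {w : ℂ} (hw : w ≠ 0) (h0 : P ω t s w ≠ 0) (h1 : P ω t s (ω * w) ≠ 0)
    (h2 : P ω t s (ω ^ 2 * w) ≠ 0) : S ω (P ω t (insert a s)) w ≤ S ω (P ω t s) w := by
  have hω0 := omega_ne_zero hω
  have k := cycle_three (x₀ := P ω t s w) (x₁ := w * P ω t s (ω * w))
    (x₂ := ω * w ^ 2 * P ω t s (ω ^ 2 * w)) (c := w ^ 3) (t := t a) h0 (mul_ne_zero hw h1)
    (mul_ne_zero (mul_ne_zero hω0 (pow_ne_zero 2 hw)) h2) (pow_ne_zero 3 hw) hta
  unfold S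
  rw [P_insert hω t ha w, P_insert hω t ha (ω * w), P_insert hω t ha (ω ^ 2 * w), rot2, rot3 hω]
  rw [show w * (P ω t s (ω * w) + ↑(t a) * (ω * w * P ω t s (ω ^ 2 * w))) =
    w * P ω t s (ω * w) + ↑(t a) * (ω * w ^ 2 * P ω t s (ω ^ 2 * w)) by ring,
    show ω * w ^ 2 * (P ω t s (ω ^ 2 * w) + ↑(t a) * (ω ^ 2 * w * P ω t s w)) =
    ω * w ^ 2 * P ω t s (ω ^ 2 * w) + ↑(t a) * (w ^ 3 * P ω t s w) by
      linear_combination (t a * w ^ 3 * P ω t s w) * omega_cube hω]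
  exact k

theorem continuousAt_S {Q : ℂ → ℂ} (hQ : Continuous Q) (hω : ω ^ 2 + ω + 1 = 0) {w : ℂ}
    (hw : w ≠ 0) (h0 : Q w ≠ 0) (h1 : Q (ω * w) ≠ 0) (h2 : Q (ω ^ 2 * w) ≠ 0) :
    ContinuousAt (S ω Q) w := by
  have hω0 := omega_ne_zero hω
  have m1 : w * Q (ω * w) ≠ 0 := mul_ne_zero hw h1
  have m2 : ω * w ^ 2 * Q (ω ^ 2 * w) ≠ 0 := mul_ne_zero (mul_ne_zero hω0 (pow_ne_zero 2 hw)) h2
  have m3 : w ^ 3 * Q w ≠ 0 := mul_ne_zero (pow_ne_zero 3 hw) h0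
  have c1 : ContinuousAt (fun u => angle (Q u) (u * Q (ω * u))) w :=
    (continuousAt_angle (x := (Q w, w * Q (ω * w))) h0 m1).comp
      (f := fun u => (Q u, u * Q (ω * u))) (by fun_prop)
  have c2 : ContinuousAt (fun u => angle (u * Q (ω * u)) (ω * u ^ 2 * Q (ω ^ 2 * u))) w :=
    (continuousAt_angle (x := (w * Q (ω * w), ω * w ^ 2 * Q (ω ^ 2 * w))) m1 m2).comp
      (f := fun u => (u * Q (ω * u), ω * u ^ 2 * Q (ω ^ 2 * u))) (by fun_prop)
  have c3 : ContinuousAt (fun u => angle (ω * u ^ 2 * Q (ω ^ 2 * u)) (u ^ 3 * Q u)) w :=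
    (continuousAt_angle (x := (ω * w ^ 2 * Q (ω ^ 2 * w), w ^ 3 * Q w)) m2 m3).comp
      (f := fun u => (ω * u ^ 2 * Q (ω ^ 2 * u), u ^ 3 * Q u)) (by fun_prop)
  exact (c1.add c2).add c3

theorem continuousAt_N₀ (hω : ω ^ 2 + ω + 1 = 0) {w : ℂ} (hw : w ≠ 0) :
    ContinuousAt (N₀ ω) w := by
  have hω0 := omega_ne_zero hω
  have c1 : ContinuousAt (fun u : ℂ => angle (1 : ℂ) u) w :=
    (continuousAt_angle (x := ((1 : ℂ), w)) one_ne_zero hw).comp
      (f := fun u => ((1 : ℂ), u)) (by fun_prop)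
  have c2 : ContinuousAt (fun u : ℂ => angle (1 : ℂ) (ω * u)) w :=
    (continuousAt_angle (x := ((1 : ℂ), ω * w)) one_ne_zero (mul_ne_zero hω0 hw)).comp
      (f := fun u => ((1 : ℂ), ω * u)) (by fun_prop)
  have c3 : ContinuousAt (fun u : ℂ => angle (1 : ℂ) (ω ^ 2 * u)) w :=
    (continuousAt_angle (x := ((1 : ℂ), ω ^ 2 * w)) one_ne_zero
      (mul_ne_zero (pow_ne_zero 2 hω0) hw)).comp
      (f := fun u => ((1 : ℂ), ω ^ 2 * u)) (by fun_prop)
  exact (c1.add c2).add c3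

theorem eventually_ne {g : ℂ → ℂ} (hg : Differentiable ℂ g) (h0 : g 0 ≠ 0) (w : ℂ) :
    ∀ᶠ u in 𝓝[≠] w, g u ≠ 0 := by
  rcases (hg.analyticAt w).eventually_eq_zero_or_eventually_ne_zero with h | h
  · exfalso
    have h1 : AnalyticOnNhd ℂ g Set.univ := fun z _ => hg.analyticAt z
    have h2 := h1.eqOn_zero_of_preconnected_of_eventuallyEq_zero isPreconnected_univ
      (Set.mem_univ w) h
    exact h0 (h2 (Set.mem_univ 0))
  · exact h

/-- The transport inequality for `T f`: the sum of the three angles is at most its value for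
`f = 1`. -/
theorem S_le (hω : ω ^ 2 + ω + 1 = 0) (t : ℕ → ℝ) (s : Finset ℕ) (ht : ∀ j ∈ s, 0 < t j) :
    ∀ w : ℂ, w ≠ 0 → P ω t s w ≠ 0 → P ω t s (ω * w) ≠ 0 → P ω t s (ω ^ 2 * w) ≠ 0 →
      S ω (P ω t s) w ≤ N₀ ω w := by
  have hω0 := omega_ne_zero hω
  induction s using Finset.induction_on with
  | empty =>
    intro w hw _ _ _
    unfold S N₀
    simp only [P_empty hω, mul_one]
    have e1 : angle w (ω * w ^ 2) = angle 1 (ω * w) := by
      have := Complex.angle_mul_left hw 1 (ω * w)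
      rw [← this]
      congr 1 <;> ring
    have e2 : angle (ω * w ^ 2) (w ^ 3) = angle 1 (ω ^ 2 * w) := by
      have := Complex.angle_mul_left (mul_ne_zero hω0 (pow_ne_zero 2 hw)) 1 (ω ^ 2 * w)
      rw [← this, mul_one, show ω * w ^ 2 * (ω ^ 2 * w) = ω ^ 3 * w ^ 3 by ring,
        omega_cube hω, one_mul]
    rw [e1, e2]
  | insert a s ha ih =>
    intro w hw h0 h1 h2
    have hd := differentiable_P (ω := ω) t s
    have hd1 : Differentiable ℂ fun u => P ω t s (ω * u) := by fun_prop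
    have hd2 : Differentiable ℂ fun u => P ω t s (ω ^ 2 * u) := by fun_prop
    have e0 := eventually_ne hd (by rw [P_zero hω]; exact one_ne_zero) w
    have e1 := eventually_ne hd1 (by simp only [mul_zero]; rw [P_zero hω]; exact one_ne_zero) w
    have e2 := eventually_ne hd2 (by simp only [mul_zero]; rw [P_zero hω]; exact one_ne_zero) w
    have e3 : ∀ᶠ u in 𝓝[≠] w, u ≠ 0 :=
      (continuousAt_id.eventually_ne hw).filter_mono nhdsWithin_le_nhds
    have hc := continuousAt_S (differentiable_P (ω := ω) t (insert a s)).continuous hω hw h0 h1 h2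
    refine le_of_tendsto_of_tendsto (hc.tendsto.mono_left (nhdsWithin_le_nhds (s := {w}ᶜ)))
      ((continuousAt_N₀ hω hw).tendsto.mono_left nhdsWithin_le_nhds) ?_
    filter_upwards [e0, e1, e2, e3] with u u0 u1 u2 u3
    exact (S_insert hω t ha (ht a (Finset.mem_insert_self a s)) u3 u0 u1 u2).trans
      (ih (fun j hj => ht j (Finset.mem_insert_of_mem hj)) u u3 u0 u1 u2)

end SokalRay
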