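import Mathlib

/-!
# The transport inequality for angles

If `y j = x j + t j • x (j+1)` with `t j > 0`, then the sum of the angles between consecutive terms
does not increase (up to the boundary terms): `sum_angle_le`.
-/

namespace SokalRay

open InnerProductGeometry Real

variable {V : Type*} [NormedAddCommGroup V] [InnerProductSpace ℝ V]

/-- A positive combination of two nonzero vectors lies between them. -/
theorem angle_split {x z : V} (hz : z ≠ 0) {t : ℝ} (ht : 0 < t) :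
    angle x z = angle x (x + t • z) + angle (x + t • z) z := by
  have h := angle_eq_angle_add_add_angle_add x (y := t • z) (smul_ne_zero ht.ne' hz)
  rw [angle_smul_right_of_pos _ _ ht, angle_smul_left_of_pos _ _ ht] at h
  rw [h, angle_comm z]

/-- The transport inequality: the operation `x ↦ y`, `y j = x j + t j • x (j + 1)`, `t j > 0`, does
not increase the sum of the angles between consecutive terms, up to boundary terms. -/
theorem sum_angle_le (x y : ℕ → V) (t : ℕ → ℝ) (N : ℕ) (hx : ∀ j, j ≤ N → x j ≠ 0)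
    (ht : ∀ j < N, 0 < t j) (hy : ∀ j < N, y j = x j + t j • x (j + 1)) :
    (∑ j ∈ Finset.range N, angle (y j) (y (j + 1))) + angle (x 0) (y 0) ≤
      (∑ j ∈ Finset.range N, angle (x j) (x (j + 1))) + angle (x N) (y N) := by
  have h1 : ∑ j ∈ Finset.range N, angle (y j) (y (j + 1)) ≤
      ∑ j ∈ Finset.range N, (angle (y j) (x (j + 1)) + angle (x (j + 1)) (y (j + 1))) :=
    Finset.sum_le_sum fun j _ => angle_le_angle_add_angle _ _ _
  have h2 : ∑ j ∈ Finset.range N, angle (x j) (x (j + 1)) =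
      ∑ j ∈ Finset.range N, (angle (x j) (y j) + angle (y j) (x (j + 1))) := by
    refine Finset.sum_congr rfl fun j hj => ?_
    rw [Finset.mem_range] at hj
    rw [hy j hj]
    exact angle_split (hx (j + 1) hj) (ht j hj)
  have h3 : (∑ j ∈ Finset.range N, angle (x (j + 1)) (y (j + 1))) + angle (x 0) (y 0) =
      (∑ j ∈ Finset.range N, angle (x j) (y j)) + angle (x N) (y N) := by
    rw [← Finset.sum_range_succ' (fun j => angle (x j) (y j)), Finset.sum_range_succ]
  rw [Finset.sum_add_distrib] at h1 h2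
  linarith

/-- Three steps on a cycle. -/
theorem cycle_three {x₀ x₁ x₂ c : ℂ} {t : ℝ} (h0 : x₀ ≠ 0) (h1 : x₁ ≠ 0) (h2 : x₂ ≠ 0)
    (hc : c ≠ 0) (ht : 0 < t) :
    angle (x₀ + t * x₁) (x₁ + t * x₂) + angle (x₁ + t * x₂) (x₂ + t * (c * x₀)) +
        angle (x₂ + t * (c * x₀)) (c * (x₀ + t * x₁)) ≤
      angle x₀ x₁ + angle x₁ x₂ + angle x₂ (c * x₀) := by
  have a0 := angle_split (x := x₀) h1 ht
  have a1 := angle_split (x := x₁) h2 ht
  have a2 := angle_split (x := x₂) (mul_ne_zero hc h0) ht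
  simp only [Complex.real_smul] at a0 a1 a2
  have b0 := angle_le_angle_add_angle (x₀ + t * x₁) x₁ (x₁ + t * x₂)
  have b1 := angle_le_angle_add_angle (x₁ + t * x₂) x₂ (x₂ + t * (c * x₀))
  have b2 := angle_le_angle_add_angle (x₂ + t * (c * x₀)) (c * x₀) (c * (x₀ + t * x₁))
  rw [Complex.angle_mul_left hc] at b2
  linarith

/-- The cube roots of unity are given by `ω ^ 2 + ω + 1 = 0`. -/
theorem omega_cube {ω : ℂ} (h : ω ^ 2 + ω + 1 = 0) : ω ^ 3 = 1 := by
  linear_combination (ω - 1) * h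

theorem omega_ne_zero {ω : ℂ} (h : ω ^ 2 + ω + 1 = 0) : ω ≠ 0 := by
  rintro rfl
  simp at h

theorem omega_norm {ω : ℂ} (h : ω ^ 2 + ω + 1 = 0) : ‖ω‖ = 1 := by
  have h1 : ‖ω‖ ^ 3 = 1 := by rw [← norm_pow, omega_cube h, norm_one]
  have h2 := norm_nonneg ω
  nlinarith [sq_nonneg (‖ω‖ - 1), sq_nonneg (‖ω‖ + 1)]

/-- The start value: the sum of the angles of the three points of an orbit. -/
noncomputable def N₀ (ω w : ℂ) : ℝ := angle 1 w + angle 1 (ω * w) + angle 1 (ω ^ 2 * w)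

theorem N₀_rot {ω : ℂ} (h : ω ^ 2 + ω + 1 = 0) (w : ℂ) : N₀ ω (ω * w) = N₀ ω w := by
  have h3 := omega_cube h
  unfold N₀
  rw [show ω ^ 2 * (ω * w) = ω ^ 3 * w by ring, h3, one_mul,
    show ω * (ω * w) = ω ^ 2 * w by ring]
  ring

theorem omega_arg {ω : ℂ} (h : ω ^ 2 + ω + 1 = 0) :
    (ω.arg = 2 * π / 3 ∧ (ω ^ 2).arg = -(2 * π / 3)) ∨
      (ω.arg = -(2 * π / 3) ∧ (ω ^ 2).arg = 2 * π / 3) := by
  have hpi := pi_pos
  have hc : cos (2 * π / 3) = -1 / 2 := by
    rw [show 2 * π / 3 = π - π / 3 by ring, cos_pi_sub, cos_pi_div_three]; ring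
  have hs : sin (2 * π / 3) = √3 / 2 := by
    rw [show 2 * π / 3 = π - π / 3 by ring, sin_pi_sub, sin_pi_div_three]
  have h3 : (√3) ^ 2 = 3 := sq_sqrt (by norm_num)
  have e1 : Complex.arg ⟨-1 / 2, √3 / 2⟩ = 2 * π / 3 := by
    have h4 := Complex.arg_cos_add_sin_mul_I (θ := 2 * π / 3) ⟨by linarith, by linarith⟩
    rw [← h4]
    congr 1
    apply Complex.ext
    · rw [← Complex.ofReal_cos, ← Complex.ofReal_sin, hc, hs]; simp
    · rw [← Complex.ofReal_cos, ← Complex.ofReal_sin, hc, hs]; simp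
  have e2 : Complex.arg ⟨-1 / 2, -(√3 / 2)⟩ = -(2 * π / 3) := by
    have h4 := Complex.arg_cos_add_sin_mul_I (θ := -(2 * π / 3)) ⟨by linarith, by linarith⟩
    rw [← h4]
    congr 1
    apply Complex.ext
    · rw [← Complex.ofReal_cos, ← Complex.ofReal_sin, cos_neg, sin_neg, hc, hs]; simp
    · rw [← Complex.ofReal_cos, ← Complex.ofReal_sin, cos_neg, sin_neg, hc, hs]; simp
  have hsq : ω ^ 2 = -1 - ω := by linear_combination h
  have hre : ω.re ^ 2 - ω.im ^ 2 + ω.re + 1 = 0 := by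
    have := congrArg Complex.re h
    simp [pow_two] at this
    nlinarith
  have him : ω.im * (2 * ω.re + 1) = 0 := by
    have := congrArg Complex.im h
    simp [pow_two] at this
    nlinarith
  rcases mul_eq_zero.1 him with h5 | h5
  · rw [h5] at hre
    nlinarith [sq_nonneg (2 * ω.re + 1)]
  · have hx : ω.re = -1 / 2 := by linarith
    rw [hx] at hre
    have h6 : (ω.im - √3 / 2) * (ω.im + √3 / 2) = 0 := by nlinarith
    rcases mul_eq_zero.1 h6 with h7 | h7
    · left
      have hω : ω = ⟨-1 / 2, √3 / 2⟩ := Complex.ext hx (by simpa using sub_eq_zero.1 h7)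
      refine ⟨by rw [hω, e1], ?_⟩
      rw [hsq, ← e2]
      congr 1
      rw [hω]
      apply Complex.ext
      · simp; norm_num
      · simp
    · right
      have hω : ω = ⟨-1 / 2, -(√3 / 2)⟩ := Complex.ext hx (by
        have : ω.im = -(√3 / 2) := by linarith
        simpa using this)
      refine ⟨by rw [hω, e2], ?_⟩
      rw [hsq, ← e1]
      congr 1
      rw [hω]
      apply Complex.ext
      · simp; norm_num
      · simp

theorem N₀_near {ω w : ℂ} (hω : ω ^ 2 + ω + 1 = 0) (hw : w ≠ 0) (h1 : -(π / 3) < w.arg)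
    (h2 : w.arg ≤ π / 3) : N₀ ω w ≤ 4 * π / 3 + angle 1 (w ^ 3) / 3 := by
  have hpi := pi_pos
  have h0 := omega_ne_zero hω
  have k2 : (w * w).arg = w.arg + w.arg := Complex.arg_mul hw hw ⟨by linarith, by linarith⟩
  have k3 : (w ^ 3).arg = 3 * w.arg := by
    rw [show w ^ 3 = w * w * w by ring, Complex.arg_mul (mul_ne_zero hw hw) hw
      ⟨by rw [k2]; linarith, by rw [k2]; linarith⟩, k2]
    ring
  unfold N₀
  rw [Complex.angle_one_left hw, Complex.angle_one_left (mul_ne_zero h0 hw),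
    Complex.angle_one_left (mul_ne_zero (pow_ne_zero 2 h0) hw),
    Complex.angle_one_left (pow_ne_zero 3 hw), k3, abs_mul, abs_of_pos (show (0 : ℝ) < 3 by norm_num)]
  rcases omega_arg hω with ⟨a1, a2⟩ | ⟨a1, a2⟩
  · rw [Complex.arg_mul h0 hw ⟨by linarith, by linarith⟩,
      Complex.arg_mul (pow_ne_zero 2 h0) hw ⟨by linarith, by linarith⟩, a1, a2,
      abs_of_nonneg (a := 2 * π / 3 + w.arg) (by linarith),
      abs_of_nonpos (a := -(2 * π / 3) + w.arg) (by linarith)]
    linarith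
  · rw [Complex.arg_mul h0 hw ⟨by linarith, by linarith⟩,
      Complex.arg_mul (pow_ne_zero 2 h0) hw ⟨by linarith, by linarith⟩, a1, a2,
      abs_of_nonneg (a := 2 * π / 3 + w.arg) (by linarith),
      abs_of_nonpos (a := -(2 * π / 3) + w.arg) (by linarith)]
    linarith

/-- One of the three points of an orbit has argument in `(-π/3, π/3]`. -/
theorem exists_near {ω w : ℂ} (hω : ω ^ 2 + ω + 1 = 0) (hw : w ≠ 0) :
    ∃ u : ℂ, (u = w ∨ u = ω * w ∨ u = ω * (ω * w)) ∧ u ≠ 0 ∧ -(π / 3) < u.arg ∧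
      u.arg ≤ π / 3 := by
  have hpi := pi_pos
  have h0 := omega_ne_zero hω
  have b1 := Complex.neg_pi_lt_arg w
  have b2 := Complex.arg_le_pi w
  have r1 : ω * (ω * w) = ω ^ 2 * w := by ring
  rcases lt_or_ge (π / 3) w.arg with c1 | c1
  · rcases omega_arg hω with ⟨a1, a2⟩ | ⟨a1, a2⟩
    · refine ⟨ω * (ω * w), by simp, mul_ne_zero h0 (mul_ne_zero h0 hw), ?_⟩
      rw [r1, Complex.arg_mul (pow_ne_zero 2 h0) hw ⟨by linarith, by linarith⟩, a2]
      constructor <;> linarith
    · refine ⟨ω * w, by simp, mul_ne_zero h0 hw, ?_⟩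
      rw [Complex.arg_mul h0 hw ⟨by linarith, by linarith⟩, a1]
      constructor <;> linarith
  · rcases lt_or_ge (-(π / 3)) w.arg with c2 | c2
    · exact ⟨w, by simp, hw, c2, c1⟩
    · rcases omega_arg hω with ⟨a1, a2⟩ | ⟨a1, a2⟩
      · refine ⟨ω * w, by simp, mul_ne_zero h0 hw, ?_⟩
        rw [Complex.arg_mul h0 hw ⟨by linarith, by linarith⟩, a1]
        constructor <;> linarith
      · refine ⟨ω * (ω * w), by simp, mul_ne_zero h0 (mul_ne_zero h0 hw), ?_⟩
        rw [r1, Complex.arg_mul (pow_ne_zero 2 h0) hw ⟨by linarith, by linarith⟩, a2]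
        constructor <;> linarith

theorem N₀_le {ω w : ℂ} (hω : ω ^ 2 + ω + 1 = 0) (hw : w ≠ 0) :
    N₀ ω w ≤ 4 * π / 3 + angle 1 (w ^ 3) / 3 := by
  have h3 := omega_cube hω
  obtain ⟨u, hu, hu0, hu1, hu2⟩ := exists_near hω hw
  have h4 := N₀_near hω hu0 hu1 hu2
  rcases hu with rfl | rfl | rfl
  · exact h4
  · rw [N₀_rot hω, mul_pow, h3, one_mul] at h4
    exact h4
  · rw [N₀_rot hω, N₀_rot hω, mul_pow, mul_pow, h3, one_mul, one_mul] at h4
    exact h4

end SokalRay
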